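import Pool.Agent.Q120.FA.Stm4

set_option autoImplicit false

/-!
# Project FA, fifth part: a weaker bound for Franel's integral already decides RH and simplicity
-/

namespace Pool.Agent.Q120.FA

open MeasureTheory Filter Topology Set

/-- W8 (a part of the proof of `J_W2`): Minkowski with the inversion `M(y) = ∑_{m≤y} (μ(m)/m) h(y/m)` -/
def J_W8 : Prop := ∃ C : ℝ, 0 < C ∧ ∀ x : ℝ, 1 ≤ x → ∫ u in (1 : ℝ)..x, (Mr u / u) ^ 2 ≤ C * H2 x

/-- W9 (the proof of `J_W5`, uses `J_W1`) -/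
def J_W9 : Prop := ∃ c : ℝ, 0 < c ∧ ∀ᶠ N : ℕ in atTop, c * (N * H2 (Real.sqrt N / 2)) ≤ FI N

/-- JOB W7 (1 h, uses `J_W8`, `J_W9`). If some zero is off the line or multiple, Franel's integral is large for ALL large `N`.
Proof. Let `ρ` be a zero with `Re ρ > 1/2` or (`Re ρ ≥ 1/2`, `ζ'(ρ) = 0`) (functional equation: replace `ρ` by `1 - ρ` if
necessary; for the multiplicity of `1 - ρ` use the completed zeta function or the library, it is not needed if `Re ρ ≥ 1/2`
already; if all zeros are on the line there is nothing to reflect). By `Pool.Agent.Results.MP_323ce2_nt.SampledValues.result`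
(`θ = 0`, `m = M`; or its lemmas `Q241SPL.Between.signs`, `signs_multiple`) `∫_x^(x log x) (M(u)/u)² du ≥ c (log x)²` for all large `x`
(`x^(2Re ρ-1) ≥ (log x)²` if `Re ρ > 1/2`). Put about `log X/(2 loglog X)` such windows into `[√X, X]`:
`∫_1^X (M(u)/u)² du ≥ c (log X)³/loglog X`. Then `J_W8`, `J_W9` with `X = √N/2`. -/
def J_W7 : Prop := (∃ ρ ∈ NTZ, ρ.re ≠ 1 / 2 ∨ deriv riemannZeta ρ = 0) →
  ∃ c : ℝ, 0 < c ∧ ∀ᶠ N : ℕ in atTop, c * (N * Real.log N ^ 3 / Real.log (Real.log N)) ≤ FI N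

end Pool.Agent.Q120.FA
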