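import Pool.Agent.Q120.FA.Stm
import Pool.Agent.Q120.NB.AsmC

set_option autoImplicit false

/-! # Project FA: the assembly -/

namespace Pool.Agent.Q120.FA

open MeasureTheory Filter Topology Set
open scoped ENNReal
open Pool.Agent.Q120.NB (zeros Theta half_le Theta_le_one re_le free exists_zero Theta_le_iff rh_iff)

lemma F_meas : Measurable F := by
  have h : Measurable (fun q : ℕ × ℝ => ∑ n ∈ Finset.Icc 1 q.1, (n.totient : ℝ) / (n : ℝ) * (1 - (n : ℝ) / q.2)) := by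
    refine measurable_from_prod_countable_right fun k => ?_
    show Measurable fun x : ℝ => ∑ n ∈ Finset.Icc 1 k, (n.totient : ℝ) / (n : ℝ) * (1 - (n : ℝ) / x)
    fun_prop
  unfold F
  refine Measurable.sub ?_ (by fun_prop)
  exact h.comp (Nat.measurable_floor.prodMk measurable_id)

lemma F_bound {x : ℝ} (hx : 0 < x) : |F x| ≤ 2 * x := by
  have h1 : |∑ n ∈ Finset.Icc 1 ⌊x⌋₊, (n.totient : ℝ) / (n : ℝ) * (1 - (n : ℝ) / x)| ≤ x := by
    refine (Finset.abs_sum_le_sum_abs _ _).trans ?_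
    have h2 : ∀ n ∈ Finset.Icc 1 ⌊x⌋₊, |(n.totient : ℝ) / (n : ℝ) * (1 - (n : ℝ) / x)| ≤ 1 := by
      intro n hn
      rw [Finset.mem_Icc] at hn
      have hn0 : (0 : ℝ) < n := by exact_mod_cast hn.1
      have hnx : (n : ℝ) ≤ x := (Nat.le_floor_iff hx.le).1 hn.2
      have h3 : 0 ≤ (n.totient : ℝ) / (n : ℝ) := by positivity
      have h4 : (n.totient : ℝ) / (n : ℝ) ≤ 1 := by
        rw [div_le_one hn0]
        exact_mod_cast n.totient_le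
      have h5 : 0 ≤ 1 - (n : ℝ) / x := by
        rw [sub_nonneg, div_le_one hx]; exact hnx
      have h6 : 1 - (n : ℝ) / x ≤ 1 := by
        have : 0 ≤ (n : ℝ) / x := by positivity
        linarith
      rw [abs_of_nonneg (mul_nonneg h3 h5)]
      exact mul_le_one₀ h4 h5 h6
    refine (Finset.sum_le_sum h2).trans ?_
    rw [Finset.sum_const, nsmul_eq_mul, mul_one, Nat.card_Icc, Nat.add_sub_cancel]
    exact Nat.floor_le hx.le
  have h7 : |3 / Real.pi ^ 2 * x| ≤ x := by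
    rw [abs_of_nonneg (by positivity)]
    have h8 : 3 / Real.pi ^ 2 ≤ 1 := by
      rw [div_le_one (by positivity)]
      nlinarith [Real.pi_gt_three]
    nlinarith
  unfold F
  calc _ ≤ |∑ n ∈ Finset.Icc 1 ⌊x⌋₊, (n.totient : ℝ) / (n : ℝ) * (1 - (n : ℝ) / x)| + |3 / Real.pi ^ 2 * x| := abs_sub _ _
    _ ≤ _ := by linarith

lemma F_int {p X : ℝ} (hp : 1 ≤ p) : IntegrableOn (fun x => |F x| ^ p) (Ioc 0 X) := by
  refine Measure.integrableOn_of_bounded (M := (2 * X) ^ p) (by simp) ?_ ?_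
  · have := F_meas
    exact Measurable.aestronglyMeasurable (by fun_prop)
  · refine (ae_restrict_iff' measurableSet_Ioc).2 (Eventually.of_forall fun x hx => ?_)
    rw [Real.norm_eq_abs, abs_of_nonneg (by positivity)]
    exact Real.rpow_le_rpow (abs_nonneg _) ((F_bound hx.1).trans (by linarith [hx.2])) (by linarith)

lemma F_lint {p X : ℝ} (hp : 1 ≤ p) (hX : 0 < X) :
    ∫⁻ x in Ioc 0 X, ENNReal.ofReal (|F x| ^ p) = ENNReal.ofReal (∫ x in (0 : ℝ)..X, |F x| ^ p) := by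
  rw [intervalIntegral.integral_of_le hX.le]
  exact (ofReal_integral_eq_lintegral_ofReal (F_int hp) (Eventually.of_forall fun x => by positivity)).symm

lemma ofReal_int_le (μ : Measure ℝ) (f : ℝ → ℝ) (hf : ∀ x, 0 ≤ f x) :
    ENNReal.ofReal (∫ x, f x ∂μ) ≤ ∫⁻ x, ENNReal.ofReal (f x) ∂μ := by
  by_cases h : Integrable f μ
  · rw [ofReal_integral_eq_lintegral_ofReal h (Eventually.of_forall hf)]
  · rw [integral_undef h]
    simp

/-- the exact limit is infinite if `F` is not in `L^p` -/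
lemma lower (zr : J_ZR) {p : ℝ} (hp : 1 ≤ p) (h : ∫⁻ x in Ioi (0 : ℝ), ENNReal.ofReal (|F x| ^ p) = ⊤) :
    Tendsto (L p) atTop (𝓝 ⊤) := by
  rw [ENNReal.tendsto_nhds_top_iff_nat]
  intro k
  -- choose X
  have h1 : ∃ X : ℝ, 0 < X ∧ (k : ℝ≥0∞) < ∫⁻ x in Ioc 0 X, ENNReal.ofReal (|F x| ^ p) := by
    have hmono : Monotone fun n : ℕ => Ioc (0 : ℝ) ((n : ℝ) + 1) := by
      intro m n hmn
      refine Ioc_subset_Ioc_right ?_
      have : (m : ℝ) ≤ n := by exact_mod_cast hmn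
      linarith
    have hun : ⋃ n : ℕ, Ioc (0 : ℝ) ((n : ℝ) + 1) = Ioi 0 := by
      ext x
      rw [mem_iUnion, mem_Ioi]
      constructor
      · rintro ⟨n, hn⟩; exact hn.1
      · intro hx
        obtain ⟨n, hn⟩ := exists_nat_ge x
        exact ⟨n, hx, by linarith⟩
    have h2 := setLIntegral_iUnion_of_directed (μ := volume) (fun x => ENNReal.ofReal (|F x| ^ p)) hmono.directed_le
    rw [hun, h] at h2
    have h3 : (k : ℝ≥0∞) < ⨆ n : ℕ, ∫⁻ x in Ioc (0 : ℝ) ((n : ℝ) + 1), ENNReal.ofReal (|F x| ^ p) := by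
      rw [← h2]; exact ENNReal.natCast_lt_top k
    obtain ⟨n, hn⟩ := lt_iSup_iff.1 h3
    exact ⟨(n : ℝ) + 1, by positivity, hn⟩
  obtain ⟨X, hX, h2⟩ := h1
  rw [F_lint hp hX] at h2
  have h3 : (k : ℝ) < ∫ x in (0 : ℝ)..X, |F x| ^ p := by
    rw [← ENNReal.ofReal_natCast] at h2
    exact (ENNReal.ofReal_lt_ofReal_iff_of_nonneg (Nat.cast_nonneg k)).1 h2
  filter_upwards [(zr p X hp hX).eventually_const_lt h3, eventually_ge_atTop (⌈X⌉₊ + 1)] with N h4 h5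
  have hN0 : (0 : ℝ) < N := by
    have : 0 < N := by omega
    exact_mod_cast this
  have hXN : X / N ≤ 1 := by
    rw [div_le_one hN0]
    have h6 : X ≤ ⌈X⌉₊ := Nat.le_ceil X
    have h7 : ((⌈X⌉₊ + 1 : ℕ) : ℝ) ≤ N := by exact_mod_cast h5
    push_cast at h7
    linarith
  have hpos : (0 : ℝ) < (N : ℝ) ^ (p - 1) := by positivity
  unfold L
  rw [ENNReal.lt_div_iff_mul_lt (Or.inl (by simpa using hpos)) (Or.inl ENNReal.ofReal_ne_top)]
  rw [lt_div_iff₀ hpos] at h4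
  have h8 : ENNReal.ofReal (∫ t in (0 : ℝ)..(X / N), |E N t| ^ p) ≤
      ∫⁻ t in Icc (0 : ℝ) 1, ENNReal.ofReal (|E N t| ^ p) := by
    rw [intervalIntegral.integral_of_le (by positivity)]
    refine (ofReal_int_le _ _ fun x => by positivity).trans ?_
    refine lintegral_mono_set fun x hx => ⟨hx.1.le, hx.2.trans hXN⟩
  refine lt_of_lt_of_le ?_ h8
  rw [← ENNReal.ofReal_natCast, ← ENNReal.ofReal_mul (Nat.cast_nonneg k)]
  exact (ENNReal.ofReal_lt_ofReal_iff_of_nonneg (by positivity)).2 h4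

/-- the series is positive -/
lemma ser_ne_zero (p : ℝ) : (∑' q : ℕ, ENNReal.ofReal ((q.totient : ℝ) / (q : ℝ) ^ (p + 1))) ≠ 0 := by
  intro h
  rw [ENNReal.tsum_eq_zero] at h
  have := h 1
  simp at this

/-- the series is finite for `p > 1` -/
lemma ser_ne_top {p : ℝ} (hp : 1 < p) : (∑' q : ℕ, ENNReal.ofReal ((q.totient : ℝ) / (q : ℝ) ^ (p + 1))) ≠ ⊤ := by
  have h1 : Summable fun q : ℕ => (q : ℝ) ^ (-p) := Real.summable_nat_rpow.2 (by linarith)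
  have h2 : ∀ q : ℕ, ENNReal.ofReal ((q.totient : ℝ) / (q : ℝ) ^ (p + 1)) ≤ ENNReal.ofReal ((q : ℝ) ^ (-p)) := by
    intro q
    apply ENNReal.ofReal_le_ofReal
    rcases Nat.eq_zero_or_pos q with rfl | hq
    · simp
      positivity
    · have hq0 : (0 : ℝ) < q := by exact_mod_cast hq
      rw [div_le_iff₀ (by positivity), ← Real.rpow_add hq0]
      have : -p + (p + 1) = 1 := by ring
      rw [this, Real.rpow_one]
      exact_mod_cast q.totient_le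
  refine ne_top_of_le_ne_top ?_ (ENNReal.tsum_le_tsum h2)
  rw [← ENNReal.ofReal_tsum_of_nonneg (fun q => by positivity) h1]
  exact ENNReal.ofReal_ne_top

lemma C_top {p : ℝ} (h : ∫⁻ x in Ioi (0 : ℝ), ENNReal.ofReal (|F x| ^ p) = ⊤) : C p = ⊤ := by
  unfold C
  rw [h, ENNReal.mul_top]
  exact mul_ne_zero (by norm_num) (ser_ne_zero p)

lemma int_of_C {p : ℝ} (h : C p ≠ ⊤) : ∫⁻ x in Ioi (0 : ℝ), ENNReal.ofReal (|F x| ^ p) ≠ ⊤ := fun h1 => h (C_top h1)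

lemma C_of_int {p : ℝ} (hp : 1 < p) (h : ∫⁻ x in Ioi (0 : ℝ), ENNReal.ofReal (|F x| ^ p) ≠ ⊤) : C p ≠ ⊤ := by
  unfold C
  exact ENNReal.mul_ne_top (ENNReal.mul_ne_top (by norm_num) (ser_ne_top hp)) h

/-- a zero to the right of `1 - 1/p`, or on this line -/
lemma not_Lp (me : J_ME) {p : ℝ} (hp : 1 ≤ p) {ρ : ℂ} (hρ : ρ ∈ zeros) (h : 1 - 1 / p ≤ ρ.re) :
    ∫⁻ x in Ioi (0 : ℝ), ENNReal.ofReal (|F x| ^ p) = ⊤ := by
  by_contra h1
  have h2 : ∫⁻ x in Ioi (1 : ℝ), ENNReal.ofReal (|F x| ^ p) ≠ ⊤ :=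
    ne_top_of_le_ne_top h1 (lintegral_mono_set (Ioi_subset_Ioi zero_le_one))
  exact absurd (me p hp h2 ρ hρ.1 hρ.2.1 hρ.2.2) (not_lt.2 h)

/-- a zero with real part at least `1/2` -/
lemma exists_half : ∃ ρ ∈ zeros, 1 / 2 ≤ ρ.re := by
  by_contra h
  push Not at h
  obtain ⟨ρ, hρ, -⟩ := exists_zero one_pos
  have h1 := h ρ hρ
  -- reflect
  have h2 : riemannZeta (1 - ρ) = 0 := by
    rw [riemannZeta_one_sub, hρ.1, mul_zero]
    · intro n hn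
      have := congrArg Complex.re hn
      simp at this
      have h3 := hρ.2.1
      have h4 : (0 : ℝ) ≤ n := Nat.cast_nonneg n
      linarith
    · intro hn
      have h3 := hρ.2.2
      rw [hn] at h3
      simp at h3
  have h3 : (1 - ρ) ∈ zeros := ⟨h2, by simp; linarith [hρ.2.2], by simp; linarith [hρ.2.1]⟩
  have h4 := h (1 - ρ) h3
  simp at h4
  linarith

/-- above the critical exponent -/
lemma above (up : J_UP) {p : ℝ} (hp : 1 < p) (h : Theta < 1 - 1 / p) :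
    C p ≠ 0 ∧ C p ≠ ⊤ ∧ Tendsto (L p) atTop (𝓝 (C p)) := by
  have hp0 : 0 < p := by linarith
  have h12 := half_le
  have hp2 : 2 < p := by
    have h1 : 1 / p < 1 / 2 := by linarith
    rw [div_lt_div_iff₀ hp0 two_pos] at h1
    linarith
  obtain ⟨θ, h1, h2⟩ := exists_between h
  obtain ⟨c, hc, h3⟩ := Pool.Agent.H295R2.mertens_bound (θ := Theta) (σ := θ) (by linarith)
    Pool.Agent.H295R2.zetaSup_free h1 (by
      have : 0 < 1 / p := by positivity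
      linarith)
  refine up p c θ hp2 (by linarith) h2 fun k hk => ?_
  have h4 := h3 (k : ℝ) (by exact_mod_cast hk)
  unfold Pool.Agent.H295R2.Mx at h4
  rw [Nat.floor_natCast] at h4
  exact h4

/-- **The theorem.** -/
theorem main (up : J_UP) (zr : J_ZR) (me : J_ME) :
    (∀ p : ℝ, 1 < p → Theta < 1 - 1 / p → C p ≠ 0 ∧ C p ≠ ⊤ ∧ Tendsto (L p) atTop (𝓝 (C p))) ∧
    (∀ p : ℝ, 1 ≤ p → (p ≤ 2 ∨ ∃ ρ ∈ zeros, 1 - 1 / p ≤ ρ.re) →
      ∫⁻ x in Ioi (0 : ℝ), ENNReal.ofReal (|F x| ^ p) = ⊤ ∧ C p = ⊤ ∧ Tendsto (L p) atTop (𝓝 ⊤)) ∧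
    (Theta < 1 → IsGLB {p : ℝ | 1 ≤ p ∧ C p ≠ ⊤} (1 / (1 - Theta))) ∧
    (∀ θ : ℝ, 1 / 2 ≤ θ → θ < 1 → List.TFAE [∀ s : ℂ, θ < s.re → riemannZeta s ≠ 0,
      ∀ p : ℝ, 1 < p → θ < 1 - 1 / p → C p ≠ ⊤ ∧ Tendsto (L p) atTop (𝓝 (C p)),
      ∀ p : ℝ, 1 < p → θ < 1 - 1 / p → ∃ K : ℝ≥0∞, K ≠ ⊤ ∧ ∃ᶠ N : ℕ in atTop, L p N ≤ K,
      ∀ p : ℝ, 1 < p → θ < 1 - 1 / p → ∫⁻ x in Ioi (0 : ℝ), ENNReal.ofReal (|F x| ^ p) ≠ ⊤]) ∧
    List.TFAE [RiemannHypothesis,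
      ∀ p : ℝ, 2 < p → C p ≠ ⊤ ∧ Tendsto (L p) atTop (𝓝 (C p)),
      ∀ p : ℝ, 2 < p → ∃ K : ℝ≥0∞, K ≠ ⊤ ∧ ∃ᶠ N : ℕ in atTop, L p N ≤ K,
      ∀ p : ℝ, 2 < p → ∫⁻ x in Ioi (0 : ℝ), ENNReal.ofReal (|F x| ^ p) ≠ ⊤] ∧
    List.TFAE [∃ σ₀ : ℝ, 1 / 2 < σ₀ ∧ σ₀ < 1 ∧ ∀ s : ℂ, σ₀ ≤ s.re → riemannZeta s ≠ 0,
      ∃ p : ℝ, 1 ≤ p ∧ C p ≠ ⊤ ∧ Tendsto (L p) atTop (𝓝 (C p)),
      ∃ p : ℝ, 1 ≤ p ∧ ∃ K : ℝ≥0∞, K ≠ ⊤ ∧ ∃ᶠ N : ℕ in atTop, L p N ≤ K,
      ∃ p : ℝ, 1 ≤ p ∧ ∫⁻ x in Ioi (0 : ℝ), ENNReal.ofReal (|F x| ^ p) ≠ ⊤] := by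
  have A1 : ∀ p : ℝ, 1 < p → Theta < 1 - 1 / p → C p ≠ 0 ∧ C p ≠ ⊤ ∧ Tendsto (L p) atTop (𝓝 (C p)) :=
    fun p hp h => above up hp h
  have A2 : ∀ p : ℝ, 1 ≤ p → (p ≤ 2 ∨ ∃ ρ ∈ zeros, 1 - 1 / p ≤ ρ.re) →
      ∫⁻ x in Ioi (0 : ℝ), ENNReal.ofReal (|F x| ^ p) = ⊤ ∧ C p = ⊤ ∧ Tendsto (L p) atTop (𝓝 ⊤) := by
    intro p hp h
    have h1 : ∫⁻ x in Ioi (0 : ℝ), ENNReal.ofReal (|F x| ^ p) = ⊤ := by
      rcases h with h | ⟨ρ, hρ, h⟩
      · obtain ⟨ρ, hρ, h2⟩ := exists_half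
        refine not_Lp me hp hρ ?_
        have h3 : 1 / 2 ≤ 1 / p := by
          rw [div_le_div_iff₀ two_pos (by linarith)]
          linarith
        linarith
      · exact not_Lp me hp hρ h
    exact ⟨h1, C_top h1, lower zr hp h1⟩
  -- no zero on the right if something is finite
  have A3 : ∀ p : ℝ, 1 ≤ p → (∃ K : ℝ≥0∞, K ≠ ⊤ ∧ ∃ᶠ N : ℕ in atTop, L p N ≤ K) → Theta ≤ 1 - 1 / p := by
    rintro p hp ⟨K, hK, h⟩
    by_contra h1
    rw [not_le] at h1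
    obtain ⟨ρ, hρ, h2⟩ := exists_zero (show 0 < Theta - (1 - 1 / p) by linarith)
    obtain ⟨-, -, h3⟩ := A2 p hp (Or.inr ⟨ρ, hρ, by linarith⟩)
    obtain ⟨N, h4, h5⟩ := (h.and_eventually (h3.eventually_const_lt (lt_top_iff_ne_top.2 hK))).exists
    exact absurd h5 (not_lt.2 h4)
  have A4 : ∀ p : ℝ, C p ≠ ⊤ ∧ Tendsto (L p) atTop (𝓝 (C p)) → ∃ K : ℝ≥0∞, K ≠ ⊤ ∧ ∃ᶠ N : ℕ in atTop, L p N ≤ K := by
    rintro p ⟨h1, h2⟩
    refine ⟨C p + 1, ENNReal.add_ne_top.2 ⟨h1, ENNReal.one_ne_top⟩, ?_⟩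
    have h3 : C p < C p + 1 := ENNReal.lt_add_right h1 one_ne_zero
    exact ((h2.eventually_lt_const h3).mono fun N h => h.le).frequently
  have A5 : ∀ p : ℝ, 1 ≤ p → ∫⁻ x in Ioi (0 : ℝ), ENNReal.ofReal (|F x| ^ p) ≠ ⊤ → Theta ≤ 1 - 1 / p := by
    intro p hp h
    by_contra h1
    rw [not_le] at h1
    obtain ⟨ρ, hρ, h2⟩ := exists_zero (show 0 < Theta - (1 - 1 / p) by linarith)
    exact h (A2 p hp (Or.inr ⟨ρ, hρ, by linarith⟩)).1
  have A6 : ∀ θ : ℝ, 1 / 2 ≤ θ → θ < 1 → List.TFAE [∀ s : ℂ, θ < s.re → riemannZeta s ≠ 0,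
      ∀ p : ℝ, 1 < p → θ < 1 - 1 / p → C p ≠ ⊤ ∧ Tendsto (L p) atTop (𝓝 (C p)),
      ∀ p : ℝ, 1 < p → θ < 1 - 1 / p → ∃ K : ℝ≥0∞, K ≠ ⊤ ∧ ∃ᶠ N : ℕ in atTop, L p N ≤ K,
      ∀ p : ℝ, 1 < p → θ < 1 - 1 / p → ∫⁻ x in Ioi (0 : ℝ), ENNReal.ofReal (|F x| ^ p) ≠ ⊤] := by
    intro θ hθ hθ1
    have hback : (∀ p : ℝ, 1 < p → θ < 1 - 1 / p → Theta ≤ 1 - 1 / p) → ∀ s : ℂ, θ < s.re → riemannZeta s ≠ 0 := by
      intro h
      rw [← Theta_le_iff hθ]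
      refine le_of_forall_gt_imp_ge_of_dense fun r hr => ?_
      rcases lt_or_ge r 1 with h1 | h1
      · have h2 : 0 < 1 - r := by linarith
        have h3 := h (1 / (1 - r)) (by rw [lt_div_iff₀ h2]; linarith) (by rw [one_div_one_div]; linarith)
        rw [one_div_one_div] at h3
        linarith
      · exact Theta_le_one.trans h1
    tfae_have 1 → 2 := by
      intro h p hp h1
      rw [← Theta_le_iff hθ] at h
      exact (A1 p hp (lt_of_le_of_lt h h1)).2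
    tfae_have 2 → 3 := fun h p hp h1 => A4 p (h p hp h1)
    tfae_have 2 → 4 := fun h p hp h1 => int_of_C (h p hp h1).1
    tfae_have 3 → 1 := fun h => hback fun p hp h1 => A3 p hp.le (h p hp h1)
    tfae_have 4 → 1 := fun h => hback fun p hp h1 => A5 p hp.le (h p hp h1)
    tfae_finish
  refine ⟨A1, A2, fun h1 => ⟨?_, ?_⟩, A6, ?_, ?_⟩
  · rintro p ⟨hp, h2⟩
    have h3 := A5 p hp (int_of_C h2)
    have hp0 : 0 < p := by linarith
    have h4 : 1 / p ≤ 1 - Theta := by linarith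
    rw [div_le_iff₀ hp0] at h4
    rw [div_le_iff₀ (by linarith)]
    linarith
  · intro b hb
    refine le_of_forall_gt_imp_ge_of_dense fun r hr => ?_
    have h2 : 0 < 1 - Theta := by linarith
    have h12 := half_le
    have h3 : 1 < 1 / (1 - Theta) := by rw [lt_div_iff₀ h2]; linarith
    have hr0 : 0 < r := by linarith
    have h4 : Theta < 1 - 1 / r := by
      have h5 : 1 / r < 1 - Theta := by
        rw [div_lt_iff₀ h2] at hr
        rw [div_lt_iff₀ hr0]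
        linarith
      linarith
    exact hb ⟨by linarith, (A1 r (by linarith) h4).2.1⟩
  · have h0 := A6 (1 / 2) le_rfl (by norm_num)
    have hiff : ∀ p : ℝ, (1 < p ∧ 1 / 2 < 1 - 1 / p) ↔ 2 < p := by
      intro p
      constructor
      · rintro ⟨h1, h2⟩
        have h3 : 1 / p < 1 / 2 := by linarith
        rw [div_lt_div_iff₀ (by linarith) two_pos] at h3
        linarith
      · intro h
        refine ⟨by linarith, ?_⟩
        have h3 : 1 / p < 1 / 2 := by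
          rw [div_lt_div_iff₀ (by linarith) two_pos]
          linarith
        linarith
    have hall : ∀ P : ℝ → Prop, (∀ p : ℝ, 1 < p → 1 / 2 < 1 - 1 / p → P p) ↔ ∀ p : ℝ, 2 < p → P p := by
      intro P
      constructor
      · intro h p hp
        exact h p ((hiff p).2 hp).1 ((hiff p).2 hp).2
      · intro h p h1 h2
        exact h p ((hiff p).1 ⟨h1, h2⟩)
    have e1 : RiemannHypothesis ↔ ∀ s : ℂ, 1 / 2 < s.re → riemannZeta s ≠ 0 := by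
      rw [rh_iff, Theta_le_iff le_rfl]
    rw [hall, hall, hall, ← e1] at h0
    exact h0
  · have hback : Theta < 1 → ∃ σ₀ : ℝ, 1 / 2 < σ₀ ∧ σ₀ < 1 ∧ ∀ s : ℂ, σ₀ ≤ s.re → riemannZeta s ≠ 0 := by
      intro h
      have h12 := half_le
      exact ⟨(Theta + 1) / 2, by linarith, by linarith, fun s hs => free (by linarith)⟩
    have hlt : ∀ p : ℝ, 1 ≤ p → 1 - 1 / p < 1 := by
      intro p hp
      have : 0 < 1 / p := by positivity
      linarith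
    tfae_have 1 → 2 := by
      rintro ⟨σ₀, h1, h2, h3⟩
      have h4 : Theta ≤ σ₀ := (Theta_le_iff h1.le).2 fun s hs => h3 s hs.le
      have h5 : 0 < 1 - σ₀ := by linarith
      refine ⟨2 / (1 - σ₀), ?_, ?_⟩
      · rw [le_div_iff₀ h5]; linarith
      · refine (A1 _ (by rw [lt_div_iff₀ h5]; linarith) ?_).2
        rw [one_div_div]
        linarith
    tfae_have 2 → 3 := fun ⟨p, hp, h⟩ => ⟨p, hp, A4 p h⟩
    tfae_have 2 → 4 := fun ⟨p, hp, h⟩ => ⟨p, hp, int_of_C h.1⟩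
    tfae_have 3 → 1 := fun ⟨p, hp, h⟩ => hback (lt_of_le_of_lt (A3 p hp h) (hlt p hp))
    tfae_have 4 → 1 := fun ⟨p, hp, h⟩ => hback (lt_of_le_of_lt (A5 p hp h) (hlt p hp))
    tfae_finish

end Pool.Agent.Q120.FA
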