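import Pool.Agent.Q120.FA.Stm2
import Pool.Agent.Q120.FA.Fin
import Pool.Agent.H295R2.T7

set_option autoImplicit false

/-! # Project FA: the exponents for all `p ≥ 1` -/

namespace Pool.Agent.Q120.FA

open MeasureTheory Filter Topology Set
open scoped ENNReal

lemma Th_eq : Th = Pool.Agent.Q120.NB.Theta := rfl

lemma cnt_le (N : ℕ) (t : ℝ) : cnt N t ≤ N * N := by
  unfold cnt
  refine (Finset.card_filter_le _ _).trans ?_
  rw [Finset.card_product, Nat.card_Icc, Nat.add_sub_cancel]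

lemma cnt_meas (N : ℕ) : Measurable (fun t : ℝ => (cnt N t : ℝ)) := by
  classical
  have h : ∀ t : ℝ, (cnt N t : ℝ) = ∑ q ∈ (Finset.Icc 1 N ×ˢ Finset.Icc 1 N).filter (fun q : ℕ × ℕ => q.1 ≤ q.2 ∧ q.1.Coprime q.2),
      if (q.1 : ℝ) / (q.2 : ℝ) ≤ t then 1 else 0 := by
    intro t
    rw [← Finset.sum_filter, Finset.filter_filter, Finset.sum_const, nsmul_eq_mul, mul_one]
    unfold cnt
    congr 2
    ext q
    simp only [Finset.mem_filter, and_assoc]
  simp_rw [h]
  refine Finset.measurable_sum _ fun q _ => ?_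
  exact Measurable.ite measurableSet_Ici measurable_const measurable_const

lemma E_meas (N : ℕ) : Measurable (E N) := by
  unfold E
  exact (cnt_meas N).sub (by fun_prop)

lemma E_bdd (N : ℕ) {t : ℝ} (h0 : 0 ≤ t) (h1 : t ≤ 1) : |E N t| ≤ 2 * (N : ℝ) ^ 2 := by
  have h2 : (cnt N t : ℝ) ≤ (N : ℝ) ^ 2 := by
    have := cnt_le N t
    rw [sq]
    exact_mod_cast this
  have h3 : (∑ n ∈ Finset.Icc 1 N, (n.totient : ℝ)) ≤ (N : ℝ) ^ 2 := by
    have h4 : ∀ n ∈ Finset.Icc 1 N, (n.totient : ℝ) ≤ N := by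
      intro n hn
      rw [Finset.mem_Icc] at hn
      exact_mod_cast n.totient_le.trans hn.2
    refine (Finset.sum_le_sum h4).trans ?_
    rw [Finset.sum_const, nsmul_eq_mul, Nat.card_Icc, Nat.add_sub_cancel, sq]
  have h5 : 0 ≤ (∑ n ∈ Finset.Icc 1 N, (n.totient : ℝ)) := Finset.sum_nonneg fun n _ => Nat.cast_nonneg _
  have h6 : (0 : ℝ) ≤ cnt N t := Nat.cast_nonneg _
  unfold E
  rw [abs_le]
  constructor <;> nlinarith

lemma E_int (N : ℕ) {p : ℝ} (hp : 0 ≤ p) : IntegrableOn (fun t => |E N t| ^ p) (Icc 0 1) := by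
  refine Measure.integrableOn_of_bounded (M := (2 * (N : ℝ) ^ 2) ^ p) (by simp) ?_ ?_
  · have := E_meas N
    exact Measurable.aestronglyMeasurable (by fun_prop)
  · refine (ae_restrict_iff' measurableSet_Icc).2 (Eventually.of_forall fun x hx => ?_)
    rw [Real.norm_eq_abs, abs_of_nonneg (by positivity)]
    exact Real.rpow_le_rpow (abs_nonneg _) (E_bdd N hx.1 hx.2) hp

lemma E_ii (N : ℕ) {p : ℝ} (hp : 0 ≤ p) {a b : ℝ} (h0 : 0 ≤ a) (hab : a ≤ b) (h1 : b ≤ 1) :
    IntervalIntegrable (fun t => |E N t| ^ p) volume a b := by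
  rw [intervalIntegrable_iff_integrableOn_Ioc_of_le hab]
  exact (E_int N hp).mono_set fun x hx => ⟨h0.trans hx.1.le, hx.2.trans h1⟩

/-- the norms are nondecreasing in `p` -/
lemma one_le_p (N : ℕ) {p : ℝ} (hp : 1 ≤ p) : ∫ t in (0 : ℝ)..1, |E N t| ≤ (∫ t in (0 : ℝ)..1, |E N t| ^ p) ^ (1 / p) := by
  have hp0 : 0 < p := by linarith
  have h1 : (∫ t in (0 : ℝ)..1, |E N t|) ^ p ≤ ∫ t in (0 : ℝ)..1, |E N t| ^ p := by
    rw [intervalIntegral.integral_of_le zero_le_one, intervalIntegral.integral_of_le zero_le_one]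
    have : IsProbabilityMeasure (volume.restrict (Ioc (0 : ℝ) 1)) := ⟨by simp⟩
    have hint : IntegrableOn (fun t => |E N t|) (Ioc 0 1) := by
      have h := (E_int N zero_le_one).mono_set (Ioc_subset_Icc_self (a := (0 : ℝ)) (b := 1))
      simpa using h
    have hint2 : IntegrableOn (fun t => |E N t| ^ p) (Ioc 0 1) := (E_int N hp0.le).mono_set Ioc_subset_Icc_self
    exact (convexOn_rpow hp).map_integral_le (μ := volume.restrict (Ioc (0 : ℝ) 1)) (f := fun t => |E N t|)
      (Real.continuous_rpow_const hp0.le).continuousOn isClosed_Ici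
      (Eventually.of_forall fun t => mem_Ici.2 (abs_nonneg _)) hint hint2
  have h0 : 0 ≤ ∫ t in (0 : ℝ)..1, |E N t| := intervalIntegral.integral_nonneg zero_le_one fun t _ => abs_nonneg _
  calc ∫ t in (0 : ℝ)..1, |E N t| = ((∫ t in (0 : ℝ)..1, |E N t|) ^ p) ^ (1 / p) := by
        rw [← Real.rpow_mul h0, mul_one_div_cancel hp0.ne', Real.rpow_one]
    _ ≤ _ := Real.rpow_le_rpow (by positivity) h1 (by positivity)

/-- the exponents -/
theorem expo (zr : J_ZR) (el : J_EL) (eu : J_EU) (p : ℝ) (hp : 1 ≤ p) :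
    Tendsto (fun N : ℕ => Real.log ((∫ t in (0 : ℝ)..1, |E N t| ^ p) ^ (1 / p)) / Real.log N) atTop
      (𝓝 (max Th (1 - 1 / p))) := by
  have hp0 : 0 < p := by linarith
  refine Pool.Agent.H295R2.log_limit (fun ε hε => ?_) (fun ε hε => ?_)
  · rcases le_total (1 - 1 / p) Th with h | h
    · rw [max_eq_left h]
      filter_upwards [el ε hε] with N h1
      exact h1.trans (one_le_p N hp)
    · rw [max_eq_right h]
      -- the neighbourhood of zero
      have hpos : 0 < ∫ x in (0 : ℝ)..1, |F x| ^ p := by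
        have h1 : ∀ x ∈ Ioo (0 : ℝ) 1, |F x| ^ p = (3 / Real.pi ^ 2 * x) ^ p := by
          intro x hx
          unfold F
          rw [Nat.floor_eq_zero.2 hx.2]
          simp only [Finset.Icc_eq_empty (by norm_num : ¬ (1 ≤ 0)), Finset.sum_empty, zero_sub, abs_neg]
          rw [abs_of_nonneg (by have := hx.1; positivity)]
        refine intervalIntegral.intervalIntegral_pos_of_pos_on ?_ (fun x hx => ?_) zero_lt_one
        · rw [intervalIntegrable_iff_integrableOn_Ioc_of_le zero_le_one]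
          exact F_int hp
        · rw [h1 x hx]
          have := hx.1
          positivity
      have h2 := (zr p 1 hp one_pos).eventually_const_lt (half_lt_self hpos)
      have h3 : ∀ᶠ N : ℕ in atTop, (1 : ℝ) ≤ ((∫ x in (0 : ℝ)..1, |F x| ^ p) / 2) * (N : ℝ) ^ (p * ε) := by
        have h4 : Tendsto (fun N : ℕ => ((∫ x in (0 : ℝ)..1, |F x| ^ p) / 2) * (N : ℝ) ^ (p * ε)) atTop atTop :=
          ((tendsto_rpow_atTop (by positivity)).comp tendsto_natCast_atTop_atTop).const_mul_atTop (by positivity)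
        exact h4.eventually_ge_atTop 1
      filter_upwards [h2, h3, eventually_ge_atTop 1] with N h4 h5 h6
      have hN1 : (1 : ℝ) ≤ N := by exact_mod_cast h6
      have hN0 : (0 : ℝ) < N := by linarith
      have hN : 1 / (N : ℝ) ≤ 1 := by rw [div_le_one hN0]; exact hN1
      rw [lt_div_iff₀ (by positivity)] at h4
      have h7 : ∫ t in (0 : ℝ)..(1 / (N : ℝ)), |E N t| ^ p ≤ ∫ t in (0 : ℝ)..1, |E N t| ^ p := by
        refine intervalIntegral.integral_mono_interval le_rfl (by positivity) hN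
          (Eventually.of_forall fun t => by positivity) (E_ii N hp0.le le_rfl zero_le_one le_rfl)
      have h8 : (N : ℝ) ^ (p * (1 - 1 / p - ε)) ≤ ∫ t in (0 : ℝ)..1, |E N t| ^ p := by
        refine le_trans ?_ (h4.le.trans h7)
        have e1 : p * (1 - 1 / p - ε) = (p - 1) - p * ε := by field_simp
        have e2 : (N : ℝ) ^ ((p - 1) - p * ε) = (N : ℝ) ^ (p - 1) / (N : ℝ) ^ (p * ε) := Real.rpow_sub hN0 _ _
        rw [e1, e2, div_le_iff₀ (by positivity)]
        calc (N : ℝ) ^ (p - 1) = 1 * (N : ℝ) ^ (p - 1) := (one_mul _).symm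
          _ ≤ (((∫ x in (0 : ℝ)..1, |F x| ^ p) / 2) * (N : ℝ) ^ (p * ε)) * (N : ℝ) ^ (p - 1) :=
              mul_le_mul_of_nonneg_right h5 (by positivity)
          _ = _ := by ring
      calc (N : ℝ) ^ (1 - 1 / p - ε) = ((N : ℝ) ^ (p * (1 - 1 / p - ε))) ^ (1 / p) := by
            rw [← Real.rpow_mul hN0.le]
            congr 1
            field_simp
        _ ≤ _ := Real.rpow_le_rpow (by positivity) h8 (by positivity)
  · obtain ⟨A, hA, h1⟩ := eu p (ε / 2) hp (by positivity)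
    have h2 : ∀ᶠ N : ℕ in atTop, A ≤ (N : ℝ) ^ (ε / 2) :=
      ((tendsto_rpow_atTop (by positivity)).comp tendsto_natCast_atTop_atTop).eventually_ge_atTop A
    filter_upwards [h2, eventually_ge_atTop 1] with N h3 h4
    have hN0 : (0 : ℝ) < N := by exact_mod_cast h4
    calc _ ≤ A * (N : ℝ) ^ (max Th (1 - 1 / p) + ε / 2) := h1 N h4
      _ ≤ (N : ℝ) ^ (ε / 2) * (N : ℝ) ^ (max Th (1 - 1 / p) + ε / 2) := mul_le_mul_of_nonneg_right h3 (by positivity)
      _ = _ := by
        rw [← Real.rpow_add hN0]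
        congr 1
        ring

end Pool.Agent.Q120.FA
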