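import Pool.Agent.Q120.FA.Fin

set_option autoImplicit false

/-! # Project FA: the formal consequences -/

namespace Pool.Agent.Q120.FA

open MeasureTheory Filter Topology Set
open scoped ENNReal
open Pool.Agent.Q120.NB (zeros Theta half_le Theta_le_one re_le free exists_zero Theta_le_iff rh_iff)

/-- The critical exponent of the limits of a family `X p N` (with the limits `K p`) is `1/(1-Θ)`. -/
structure Law (X : ℝ → ℕ → ℝ≥0∞) (K : ℝ → ℝ≥0∞) : Prop where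
  /-- above the critical exponent: finite limits -/
  above : ∀ p : ℝ, 1 < p → Theta < 1 - 1 / p → K p ≠ 0 ∧ K p ≠ ⊤ ∧ Tendsto (X p) atTop (𝓝 (K p))
  /-- below, and for `p ≤ 2`: infinite limits -/
  below : ∀ p : ℝ, 1 ≤ p → (p ≤ 2 ∨ ∃ ρ ∈ zeros, 1 - 1 / p ≤ ρ.re) → K p = ⊤ ∧ Tendsto (X p) atTop (𝓝 ⊤)
  /-- the supremum of the real parts of the zeros is determined -/
  crit : Theta < 1 → IsGLB {p : ℝ | 1 ≤ p ∧ K p ≠ ⊤} (1 / (1 - Theta))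
  /-- the Riemann hypothesis -/
  rh : List.TFAE [RiemannHypothesis,
    ∀ p : ℝ, 2 < p → K p ≠ ⊤ ∧ Tendsto (X p) atTop (𝓝 (K p)),
    ∀ p : ℝ, 2 < p → K p ≠ ⊤,
    ∀ ε : ℝ, 0 < ε → ∃ p : ℝ, 1 ≤ p ∧ p < 2 + ε ∧ ∃ B : ℝ≥0∞, B ≠ ⊤ ∧ ∃ᶠ N : ℕ in atTop, X p N ≤ B]
  /-- zero-free half-planes -/
  half : ∀ θ : ℝ, 1 / 2 ≤ θ → θ < 1 → List.TFAE [∀ s : ℂ, θ < s.re → riemannZeta s ≠ 0,
    ∀ p : ℝ, 1 / (1 - θ) < p → K p ≠ ⊤ ∧ Tendsto (X p) atTop (𝓝 (K p)),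
    ∀ p : ℝ, 1 / (1 - θ) < p → K p ≠ ⊤,
    ∀ ε : ℝ, 0 < ε → ∃ p : ℝ, 1 ≤ p ∧ p < 1 / (1 - θ) + ε ∧ ∃ B : ℝ≥0∞, B ≠ ⊤ ∧ ∃ᶠ N : ℕ in atTop, X p N ≤ B]
  /-- the existence of a zero-free half-plane -/
  plane : List.TFAE [∃ σ₀ : ℝ, 1 / 2 < σ₀ ∧ σ₀ < 1 ∧ ∀ s : ℂ, σ₀ ≤ s.re → riemannZeta s ≠ 0,
    ∃ p : ℝ, 1 ≤ p ∧ K p ≠ ⊤ ∧ Tendsto (X p) atTop (𝓝 (K p)),
    ∃ p : ℝ, 1 ≤ p ∧ K p ≠ ⊤,
    ∃ p : ℝ, 1 ≤ p ∧ ∃ B : ℝ≥0∞, B ≠ ⊤ ∧ ∃ᶠ N : ℕ in atTop, X p N ≤ B]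

theorem law_of {X : ℝ → ℕ → ℝ≥0∞} {K : ℝ → ℝ≥0∞}
    (A1 : ∀ p : ℝ, 1 < p → Theta < 1 - 1 / p → K p ≠ 0 ∧ K p ≠ ⊤ ∧ Tendsto (X p) atTop (𝓝 (K p)))
    (A2 : ∀ p : ℝ, 1 ≤ p → (∃ ρ ∈ zeros, 1 - 1 / p ≤ ρ.re) → K p = ⊤ ∧ Tendsto (X p) atTop (𝓝 ⊤)) : Law X K := by
  have A2' : ∀ p : ℝ, 1 ≤ p → (p ≤ 2 ∨ ∃ ρ ∈ zeros, 1 - 1 / p ≤ ρ.re) → K p = ⊤ ∧ Tendsto (X p) atTop (𝓝 ⊤) := by
    intro p hp h
    refine A2 p hp ?_
    rcases h with h | h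
    · obtain ⟨ρ, hρ, h2⟩ := exists_half
      refine ⟨ρ, hρ, ?_⟩
      have h3 : 1 / 2 ≤ 1 / p := by
        rw [div_le_div_iff₀ two_pos (by linarith)]
        linarith
      linarith
    · exact h
  have A3 : ∀ p : ℝ, 1 ≤ p → (∃ B : ℝ≥0∞, B ≠ ⊤ ∧ ∃ᶠ N : ℕ in atTop, X p N ≤ B) → Theta ≤ 1 - 1 / p := by
    rintro p hp ⟨B, hB, h⟩
    by_contra h1
    rw [not_le] at h1
    obtain ⟨ρ, hρ, h2⟩ := exists_zero (show 0 < Theta - (1 - 1 / p) by linarith)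
    obtain ⟨-, h3⟩ := A2 p hp ⟨ρ, hρ, by linarith⟩
    obtain ⟨N, h4, h5⟩ := (h.and_eventually (h3.eventually_const_lt (lt_top_iff_ne_top.2 hB))).exists
    exact absurd h5 (not_lt.2 h4)
  have A4 : ∀ p : ℝ, K p ≠ ⊤ ∧ Tendsto (X p) atTop (𝓝 (K p)) → ∃ B : ℝ≥0∞, B ≠ ⊤ ∧ ∃ᶠ N : ℕ in atTop, X p N ≤ B := by
    rintro p ⟨h1, h2⟩
    refine ⟨K p + 1, ENNReal.add_ne_top.2 ⟨h1, ENNReal.one_ne_top⟩, ?_⟩
    have h3 : K p < K p + 1 := ENNReal.lt_add_right h1 one_ne_zero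
    exact ((h2.eventually_lt_const h3).mono fun N h => h.le).frequently
  have A5 : ∀ p : ℝ, 1 ≤ p → K p ≠ ⊤ → Theta ≤ 1 - 1 / p := by
    intro p hp h
    by_contra h1
    rw [not_le] at h1
    obtain ⟨ρ, hρ, h2⟩ := exists_zero (show 0 < Theta - (1 - 1 / p) by linarith)
    exact h (A2 p hp ⟨ρ, hρ, by linarith⟩).1
  have hpc : ∀ θ : ℝ, θ < 1 → 0 ≤ θ → ∀ p : ℝ, 1 / (1 - θ) < p → 1 < p ∧ θ < 1 - 1 / p := by
    intro θ h1 h0 p hp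
    have h2 : 0 < 1 - θ := by linarith
    have h3 : 1 ≤ 1 / (1 - θ) := by rw [le_div_iff₀ h2]; linarith
    have hp0 : 0 < p := by linarith
    refine ⟨by linarith, ?_⟩
    have h5 : 1 / p < 1 - θ := by
      rw [div_lt_iff₀ h2] at hp
      rw [div_lt_iff₀ hp0]
      linarith
    linarith
  have A6 : ∀ θ : ℝ, 1 / 2 ≤ θ → θ < 1 → List.TFAE [∀ s : ℂ, θ < s.re → riemannZeta s ≠ 0,
      ∀ p : ℝ, 1 / (1 - θ) < p → K p ≠ ⊤ ∧ Tendsto (X p) atTop (𝓝 (K p)),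
      ∀ p : ℝ, 1 / (1 - θ) < p → K p ≠ ⊤,
      ∀ ε : ℝ, 0 < ε → ∃ p : ℝ, 1 ≤ p ∧ p < 1 / (1 - θ) + ε ∧ ∃ B : ℝ≥0∞, B ≠ ⊤ ∧ ∃ᶠ N : ℕ in atTop, X p N ≤ B] := by
    intro θ hθ hθ1
    have h0 : 0 < 1 - θ := by linarith
    have h1' : 1 ≤ 1 / (1 - θ) := by rw [le_div_iff₀ h0]; linarith
    have hback : (∀ ε : ℝ, 0 < ε → ∃ p : ℝ, 1 ≤ p ∧ p < 1 / (1 - θ) + ε ∧ Theta ≤ 1 - 1 / p) →
        ∀ s : ℂ, θ < s.re → riemannZeta s ≠ 0 := by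
      intro h
      rw [← Theta_le_iff hθ]
      by_contra hcon
      rw [not_le] at hcon
      -- `1/(1-θ) < 1/(1-Θ)`
      rcases lt_or_ge Theta 1 with h1 | h1
      · have h2 : 0 < 1 - Theta := by linarith
        have h3 : 1 / (1 - θ) < 1 / (1 - Theta) := one_div_lt_one_div_of_lt h2 (by linarith)
        obtain ⟨p, hp, h4, h5⟩ := h (1 / (1 - Theta) - 1 / (1 - θ)) (by linarith)
        have hp0 : 0 < p := by linarith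
        have h6 : p < 1 / (1 - Theta) := by linarith
        rw [lt_div_iff₀ h2] at h6
        have h7 : 1 - Theta < 1 / p := by
          rw [lt_div_iff₀ hp0]
          linarith
        linarith
      · obtain ⟨p, hp, h4, h5⟩ := h 1 one_pos
        have : 0 < 1 / p := by positivity
        linarith
    tfae_have 1 → 2 := by
      intro h p hp
      rw [← Theta_le_iff hθ] at h
      obtain ⟨h2, h3⟩ := hpc θ hθ1 (by linarith) p hp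
      exact (A1 p h2 (lt_of_le_of_lt h h3)).2
    tfae_have 2 → 3 := fun h p hp => (h p hp).1
    tfae_have 2 → 4 := by
      intro h ε hε
      exact ⟨1 / (1 - θ) + ε / 2, by linarith, by linarith, A4 _ (h _ (by linarith))⟩
    tfae_have 3 → 1 := fun h => hback fun ε hε =>
      ⟨1 / (1 - θ) + ε / 2, by linarith, by linarith, A5 _ (by linarith) (h _ (by linarith))⟩
    tfae_have 4 → 1 := fun h => hback fun ε hε => by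
      obtain ⟨p, hp, h2, h3⟩ := h ε hε
      exact ⟨p, hp, h2, A3 p hp h3⟩
    tfae_finish
  refine ⟨A1, A2', fun h1 => ⟨?_, ?_⟩, ?_, A6, ?_⟩
  · rintro p ⟨hp, h2⟩
    have h3 := A5 p hp h2
    have hp0 : 0 < p := by linarith
    have h4 : 1 / p ≤ 1 - Theta := by linarith
    rw [div_le_iff₀ hp0] at h4
    rw [div_le_iff₀ (by linarith)]
    linarith
  · intro b hb
    refine le_of_forall_gt_imp_ge_of_dense fun r hr => ?_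
    have h12 := half_le
    obtain ⟨h3, h4⟩ := hpc Theta h1 (by linarith) r hr
    exact hb ⟨h3.le, (A1 r h3 h4).2.1⟩
  · have h0 := A6 (1 / 2) le_rfl (by norm_num)
    have e2 : (1 : ℝ) / (1 - 1 / 2) = 2 := by norm_num
    have e1 : RiemannHypothesis ↔ ∀ s : ℂ, 1 / 2 < s.re → riemannZeta s ≠ 0 := by
      rw [rh_iff, Theta_le_iff le_rfl]
    rw [e2, ← e1] at h0
    exact h0
  · have hback : Theta < 1 → ∃ σ₀ : ℝ, 1 / 2 < σ₀ ∧ σ₀ < 1 ∧ ∀ s : ℂ, σ₀ ≤ s.re → riemannZeta s ≠ 0 := by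
      intro h
      have h12 := half_le
      exact ⟨(Theta + 1) / 2, by linarith, by linarith, fun s hs => free (by linarith)⟩
    have hlt : ∀ p : ℝ, 1 ≤ p → 1 - 1 / p < 1 := by
      intro p hp
      have : 0 < 1 / p := by positivity
      linarith
    tfae_have 1 → 2 := by
      rintro ⟨σ₀, h1, h2, h3⟩
      have h4 : Theta ≤ σ₀ := (Theta_le_iff h1.le).2 fun s hs => h3 s hs.le
      have h5 : 0 < 1 - σ₀ := by linarith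
      refine ⟨2 / (1 - σ₀), ?_, ?_⟩
      · rw [le_div_iff₀ h5]; linarith
      · refine (A1 _ (by rw [lt_div_iff₀ h5]; linarith) ?_).2
        rw [one_div_div]
        linarith
    tfae_have 2 → 3 := fun ⟨p, hp, h⟩ => ⟨p, hp, h.1⟩
    tfae_have 2 → 4 := fun ⟨p, hp, h⟩ => ⟨p, hp, A4 p h⟩
    tfae_have 3 → 1 := fun ⟨p, hp, h⟩ => hback (lt_of_le_of_lt (A5 p hp h) (hlt p hp))
    tfae_have 4 → 1 := fun ⟨p, hp, h⟩ => hback (lt_of_le_of_lt (A3 p hp h) (hlt p hp))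
    tfae_finish

/-- the integrals -/
theorem law_int (up : J_UP) (zr : J_ZR) (me : J_ME) : Law L C :=
  law_of (fun _ hp h => above up hp h) fun p hp ⟨_, hρ, h⟩ =>
    ⟨C_top (not_Lp me hp hρ h), lower zr hp (not_Lp me hp hρ h)⟩

end Pool.Agent.Q120.FA
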