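import Pool.Agent.Q120.FA.Stm3
import Pool.Agent.Q120.FA.Fin2
import Pool.Agent.Q120.FA.Law
import Pool.Agent.Q277.FA.ID
import Pool.Agent.Q124.FA.ZR

set_option autoImplicit false

/-! # Project FA: the classical sums -/

namespace Pool.Agent.Q120.FA

open MeasureTheory Filter Topology Set
open scoped ENNReal
open Pool.Agent.Q120.NB (zeros Theta half_le Theta_le_one re_le free exists_zero Theta_le_iff rh_iff)

/-- `∑_{n ≤ N} φ(n)` -/
noncomputable def Ph (N : ℕ) : ℝ := ∑ n ∈ Finset.Icc 1 N, (n.totient : ℝ)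

lemma card_FN (N : ℕ) : ((FN N).card : ℝ) = Ph N := by
  classical
  have h1 : ((FN N).card : ℝ) = ∑ q ∈ Finset.Icc 1 N ×ˢ Finset.Icc 1 N,
      if q.1 ≤ q.2 ∧ q.1.Coprime q.2 then (1 : ℝ) else 0 := by
    rw [Finset.sum_boole]
    unfold FN
    congr 2
  rw [h1, Finset.sum_product_right]
  unfold Ph
  refine Finset.sum_congr rfl fun k hk => ?_
  rw [Finset.mem_Icc] at hk
  rw [← Finset.sum_subset (Finset.Icc_subset_Icc_right hk.2)]
  · have h2 := Nat.filter_coprime_Ico_eq_totient k 1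
    have h3 : (Finset.Icc 1 k).filter (fun h => h ≤ k ∧ Nat.Coprime h k) =
        (Finset.Ico 1 (1 + k)).filter (fun x => Nat.Coprime k x) := by
      ext x
      simp only [Finset.mem_filter, Finset.mem_Icc, Finset.mem_Ico, Nat.coprime_comm]
      constructor
      · rintro ⟨⟨a, b⟩, -, c⟩
        exact ⟨⟨a, by omega⟩, c⟩
      · rintro ⟨⟨a, b⟩, c⟩
        exact ⟨⟨a, by omega⟩, by omega, c⟩
    rw [Finset.sum_boole]
    rw [h3, h2]
  · intro h hh hn
    rw [Finset.mem_Icc] at hh hn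
    rw [if_neg]
    rintro ⟨h', -⟩
    exact hn ⟨hh.1, h'⟩

lemma Ph_pos {N : ℕ} (hN : 1 ≤ N) : 1 ≤ Ph N := by
  unfold Ph
  have h1 : ((1 : ℕ).totient : ℝ) ≤ ∑ n ∈ Finset.Icc 1 N, (n.totient : ℝ) :=
    Finset.single_le_sum (f := fun n : ℕ => (n.totient : ℝ)) (fun n _ => Nat.cast_nonneg _)
      (Finset.mem_Icc.2 ⟨le_rfl, hN⟩)
  simpa using h1

lemma Ph_le (N : ℕ) : Ph N ≤ (N : ℝ) ^ 2 := by
  have h4 : ∀ n ∈ Finset.Icc 1 N, (n.totient : ℝ) ≤ N := by
    intro n hn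
    rw [Finset.mem_Icc] at hn
    exact_mod_cast n.totient_le.trans hn.2
  refine (Finset.sum_le_sum h4).trans ?_
  rw [Finset.sum_const, nsmul_eq_mul, Nat.card_Icc, Nat.add_sub_cancel, sq]

lemma Ph_lim : Tendsto (fun N : ℕ => Ph N / (N : ℝ) ^ 2) atTop (𝓝 (3 / Real.pi ^ 2)) :=
  Pool.Agent.Q124.FA.totient_lim

lemma D_term {N : ℕ} (hN : 1 ≤ N) (q : ℕ × ℕ) :
    |fp q - (cnt N (fp q) : ℝ) / ((FN N).card : ℝ)| = |E N (fp q)| / Ph N := by
  have h0 : 0 < Ph N := lt_of_lt_of_le one_pos (Ph_pos hN)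
  rw [card_FN]
  have h1 : fp q - (cnt N (fp q) : ℝ) / Ph N = -(E N (fp q)) / Ph N := by
    have h2 : E N (fp q) = (cnt N (fp q) : ℝ) - Ph N * fp q := rfl
    rw [h2]
    field_simp
    ring
  rw [h1, abs_div, abs_neg, abs_of_pos h0]

lemma D_eq {N : ℕ} (hN : 1 ≤ N) (p : ℝ) : D p N = W p N / Ph N ^ p := by
  have h0 : 0 < Ph N := lt_of_lt_of_le one_pos (Ph_pos hN)
  unfold D W
  rw [Finset.sum_div]
  refine Finset.sum_congr rfl fun q _ => ?_
  rw [D_term hN, Real.div_rpow (abs_nonneg _) h0.le]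

lemma W_nonneg (p : ℝ) (N : ℕ) : 0 ≤ W p N := Finset.sum_nonneg fun q _ => by positivity

lemma D_nonneg (p : ℝ) (N : ℕ) : 0 ≤ D p N := Finset.sum_nonneg fun q _ => by positivity

lemma ratio {N : ℕ} (hN : 1 ≤ N) (p : ℝ) :
    (N : ℝ) ^ (p - 1) * D p N = W p N / (N : ℝ) ^ (p + 1) * (Ph N / (N : ℝ) ^ 2) ^ (-p) := by
  have h0 : 0 < Ph N := lt_of_lt_of_le one_pos (Ph_pos hN)
  have hN0 : (0 : ℝ) < N := by exact_mod_cast hN
  rw [D_eq hN, Real.rpow_neg (by positivity), Real.div_rpow h0.le (by positivity)]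
  have e1 : ((N : ℝ) ^ 2) ^ p = (N : ℝ) ^ (p + 1) * (N : ℝ) ^ (p - 1) := by
    rw [← Real.rpow_natCast, ← Real.rpow_mul hN0.le, ← Real.rpow_add hN0]
    congr 1
    push_cast
    ring
  rw [e1]
  have h1 : (0 : ℝ) < (N : ℝ) ^ (p + 1) := by positivity
  have h2 : (0 : ℝ) < (N : ℝ) ^ (p - 1) := by positivity
  have h3 : (0 : ℝ) < Ph N ^ p := by positivity
  field_simp

lemma ratio_ge {N : ℕ} (hN : 1 ≤ N) {p : ℝ} (hp : 0 ≤ p) :
    W p N / (N : ℝ) ^ (p + 1) ≤ (N : ℝ) ^ (p - 1) * D p N := by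
  have h0 : 0 < Ph N := lt_of_lt_of_le one_pos (Ph_pos hN)
  have hN0 : (0 : ℝ) < N := by exact_mod_cast hN
  rw [ratio hN]
  refine le_mul_of_one_le_right (div_nonneg (W_nonneg p N) (by positivity)) ?_
  rw [Real.rpow_neg (by positivity)]
  refine (one_le_inv₀ (by positivity)).2 ?_
  refine Real.rpow_le_one (by positivity) ?_ hp
  rw [div_le_one (by positivity)]
  exact Ph_le N

/-- `N^(p-1) D_p(N)` -/
noncomputable def Ls (p : ℝ) (N : ℕ) : ℝ≥0∞ := ENNReal.ofReal ((N : ℝ) ^ (p - 1) * D p N)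

/-- its limit -/
noncomputable def Cs (p : ℝ) : ℝ≥0∞ :=
  ENNReal.ofReal ((Real.pi ^ 2 / 3) ^ p) *
    (2 * (∑' q : ℕ, ENNReal.ofReal ((q.totient : ℝ) / (q : ℝ) ^ (p + 1))) *
      ∫⁻ x in Ioi (0 : ℝ), ENNReal.ofReal (|F x| ^ p * w x))

lemma w_nonneg (x : ℝ) : 0 ≤ w x := by
  unfold w
  positivity

lemma w_meas : Measurable w := by
  have h : Measurable (fun x : ℝ => Ph ⌊x⌋₊) := (measurable_of_countable Ph).comp Nat.measurable_floor
  unfold w
  exact h.div (by fun_prop)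

lemma w_one {x : ℝ} (h1 : 1 ≤ x) (h2 : x < 2) : w x = 1 / x ^ 2 := by
  have h3 : ⌊x⌋₊ = 1 := by
    rw [Nat.floor_eq_iff (by linarith)]
    constructor
    · simpa using h1
    · norm_num
      exact h2
  unfold w
  rw [h3]
  simp

/-- `F` on `[1,2)` -/
lemma F_one {x : ℝ} (h1 : 1 ≤ x) (h2 : x < 2) : F x = 1 - 1 / x - 3 / Real.pi ^ 2 * x := by
  have h3 : ⌊x⌋₊ = 1 := by
    rw [Nat.floor_eq_iff (by linarith)]
    constructor
    · simpa using h1
    · norm_num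
      exact h2
  unfold F
  rw [h3]
  simp

lemma F_neg {x : ℝ} (h1 : 1 ≤ x) (h2 : x ≤ 11 / 10) : 1 / 10 ≤ |F x| := by
  rw [F_one h1 (by linarith)]
  have h3 : 1 / x ≥ 10 / 11 := by
    rw [ge_iff_le, div_le_div_iff₀ (by norm_num) (by linarith)]
    linarith
  have h4 : 3 / Real.pi ^ 2 ≥ 3 / 10 := by
    rw [ge_iff_le, div_le_div_iff₀ (by norm_num) (by positivity)]
    have := Real.pi_lt_d2
    nlinarith [Real.pi_pos]
  have h5 : 1 - 1 / x - 3 / Real.pi ^ 2 * x ≤ -(1 / 10) := by nlinarith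
  rw [abs_of_nonpos (by linarith)]
  linarith

/-- the integral is positive -/
lemma Fw_pos {p : ℝ} (hp : 0 ≤ p) {X : ℝ} (hX : 11 / 10 ≤ X) :
    0 < ∫⁻ x in Ioc (0 : ℝ) X, ENNReal.ofReal (|F x| ^ p * w x) := by
  have h1 : ∫⁻ _ in Icc (1 : ℝ) (11 / 10), ENNReal.ofReal ((1 / 10) ^ p * (1 / 4)) ≤
      ∫⁻ x in Ioc (0 : ℝ) X, ENNReal.ofReal (|F x| ^ p * w x) := by
    refine le_trans ?_ (lintegral_mono_set (show Icc (1 : ℝ) (11 / 10) ⊆ Ioc 0 X from
      fun x hx => ⟨by linarith [hx.1], hx.2.trans hX⟩))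
    refine setLIntegral_mono' measurableSet_Icc fun x hx => ENNReal.ofReal_le_ofReal ?_
    refine mul_le_mul (Real.rpow_le_rpow (by norm_num) (F_neg hx.1 hx.2) hp) ?_ (by norm_num) (by positivity)
    rw [w_one hx.1 (by linarith [hx.2])]
    rw [div_le_div_iff₀ (by norm_num) (by nlinarith [hx.1])]
    nlinarith [hx.1, hx.2]
  refine lt_of_lt_of_le ?_ h1
  rw [setLIntegral_const, Real.volume_Icc]
  refine ENNReal.mul_pos ?_ ?_
  · simp only [ne_eq, ENNReal.ofReal_eq_zero, not_le]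
    positivity
  · simp only [ne_eq, ENNReal.ofReal_eq_zero, not_le]
    norm_num

/-- `w` is bounded below on `[1,∞)` -/
lemma w_ge : ∃ c : ℝ, 0 < c ∧ ∀ x : ℝ, 1 ≤ x → c ≤ w x := by
  have h1 : (1 : ℝ) / 4 < 3 / Real.pi ^ 2 := by
    rw [div_lt_div_iff₀ (by norm_num) (by positivity)]
    have := Real.pi_lt_d2
    nlinarith [Real.pi_pos]
  obtain ⟨N0, h2⟩ := eventually_atTop.1 (Ph_lim.eventually_const_lt h1)
  refine ⟨1 / (16 * ((N0 : ℝ) + 1) ^ 2), by positivity, fun x hx => ?_⟩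
  have hx0 : 0 < x := by linarith
  have hn : 1 ≤ ⌊x⌋₊ := Nat.floor_pos.2 hx
  have hw : w x = Ph ⌊x⌋₊ / x ^ 2 := rfl
  rw [hw]
  have h3 : x < (⌊x⌋₊ : ℝ) + 1 := Nat.lt_floor_add_one x
  have hn1 : (1 : ℝ) ≤ (⌊x⌋₊ : ℝ) := by exact_mod_cast hn
  rcases le_or_gt N0 ⌊x⌋₊ with h | h
  · have h4 := h2 _ h
    rw [lt_div_iff₀ (by positivity)] at h4
    have h5 : x ^ 2 / 16 ≤ Ph ⌊x⌋₊ := by nlinarith
    calc 1 / (16 * ((N0 : ℝ) + 1) ^ 2) ≤ 1 / 16 := by
          apply div_le_div_of_nonneg_left (by norm_num) (by norm_num)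
          have : (1 : ℝ) ≤ ((N0 : ℝ) + 1) ^ 2 := by nlinarith [Nat.cast_nonneg (α := ℝ) N0]
          linarith
      _ ≤ Ph ⌊x⌋₊ / x ^ 2 := by
          rw [le_div_iff₀ (by positivity)]
          linarith
  · have h4 : x ≤ N0 := by
      have : ((⌊x⌋₊ + 1 : ℕ) : ℝ) ≤ N0 := by exact_mod_cast h
      push_cast at this
      linarith
    have h5 := Ph_pos hn
    rw [div_le_div_iff₀ (by positivity) (by positivity)]
    nlinarith [sq_nonneg ((N0 : ℝ) + 1), Nat.cast_nonneg (α := ℝ) N0]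

lemma Fw_top (me : J_ME) {p : ℝ} (hp : 1 ≤ p) {ρ : ℂ} (hρ : ρ ∈ zeros) (h : 1 - 1 / p ≤ ρ.re) :
    ∫⁻ x in Ioi (0 : ℝ), ENNReal.ofReal (|F x| ^ p * w x) = ⊤ := by
  have h1 : ∫⁻ x in Ioi (1 : ℝ), ENNReal.ofReal (|F x| ^ p) = ⊤ := by
    by_contra h2
    exact absurd (me p hp h2 ρ hρ.1 hρ.2.1 hρ.2.2) (not_lt.2 h)
  obtain ⟨c, hc, h2⟩ := w_ge
  refine top_le_iff.1 ?_
  calc (⊤ : ℝ≥0∞) = ENNReal.ofReal c * ∫⁻ x in Ioi (1 : ℝ), ENNReal.ofReal (|F x| ^ p) := by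
        rw [h1, ENNReal.mul_top]
        simpa using hc
    _ = ∫⁻ x in Ioi (1 : ℝ), ENNReal.ofReal c * ENNReal.ofReal (|F x| ^ p) := by
        rw [lintegral_const_mul']
        exact ENNReal.ofReal_ne_top
    _ ≤ ∫⁻ x in Ioi (1 : ℝ), ENNReal.ofReal (|F x| ^ p * w x) := by
        refine setLIntegral_mono' measurableSet_Ioi fun x hx => ?_
        rw [← ENNReal.ofReal_mul hc.le]
        refine ENNReal.ofReal_le_ofReal ?_
        rw [mul_comm]
        exact mul_le_mul_of_nonneg_left (h2 x (le_of_lt hx)) (by positivity)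
    _ ≤ _ := lintegral_mono_set (Ioi_subset_Ioi zero_le_one)

lemma Fw_int {p X : ℝ} (hp : 1 ≤ p) : IntegrableOn (fun x => |F x| ^ p * w x) (Ioc 0 X) := by
  refine Measure.integrableOn_of_bounded (M := (2 * X) ^ p * 1) (by simp) ?_ ?_
  · have := F_meas
    have := w_meas
    exact Measurable.aestronglyMeasurable (by fun_prop)
  · refine (ae_restrict_iff' measurableSet_Ioc).2 (Eventually.of_forall fun x hx => ?_)
    rw [Real.norm_eq_abs, abs_of_nonneg (mul_nonneg (by positivity) (w_nonneg x))]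
    refine mul_le_mul (Real.rpow_le_rpow (abs_nonneg _) ((F_bound hx.1).trans (by linarith [hx.2])) (by linarith)) ?_
      (w_nonneg x) (by have : 0 < X := lt_of_lt_of_le hx.1 hx.2; positivity)
    have hw : w x = Ph ⌊x⌋₊ / x ^ 2 := rfl
    rw [hw, div_le_one (by have := hx.1; positivity)]
    refine (Ph_le _).trans ?_
    exact pow_le_pow_left₀ (Nat.cast_nonneg _) (Nat.floor_le hx.1.le) 2

lemma Fw_lint {p X : ℝ} (hp : 1 ≤ p) (hX : 0 < X) :
    ∫⁻ x in Ioc 0 X, ENNReal.ofReal (|F x| ^ p * w x) = ENNReal.ofReal (∫ x in (0 : ℝ)..X, |F x| ^ p * w x) := by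
  rw [intervalIntegral.integral_of_le hX.le]
  exact (ofReal_integral_eq_lintegral_ofReal (Fw_int hp)
    (Eventually.of_forall fun x => mul_nonneg (by positivity) (w_nonneg x))).symm

/-- the part of the sum near `0` -/
lemma near_zero (sz : J_SZ) (sa : J_SA) {p : ℝ} (hp : 1 ≤ p) {X k : ℝ} (hX : 0 < X)
    (h : k < ∫ x in (0 : ℝ)..X, |F x| ^ p * w x) :
    ∀ᶠ N : ℕ in atTop, k < W p N / (N : ℝ) ^ (p + 1) := by
  have h1 := (sa p hp 1 0 le_rfl (by norm_num) (by simp) sz X hX).1 (by norm_num)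
  simp only [Nat.cast_one, Real.one_rpow, div_one, one_mul, Nat.cast_zero, zero_add] at h1
  filter_upwards [h1.eventually_const_lt h, eventually_ge_atTop 1] with N h2 h3
  have hN0 : (0 : ℝ) < N := by exact_mod_cast h3
  refine h2.trans_le (div_le_div_of_nonneg_right ?_ (by positivity))
  unfold W
  refine Finset.sum_le_sum fun r _ => ?_
  split_ifs
  · exact le_rfl
  · positivity

lemma lowerS (sz : J_SZ) (sa : J_SA) {p : ℝ} (hp : 1 ≤ p)
    (h : ∫⁻ x in Ioi (0 : ℝ), ENNReal.ofReal (|F x| ^ p * w x) = ⊤) : Tendsto (Ls p) atTop (𝓝 ⊤) := by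
  rw [ENNReal.tendsto_nhds_top_iff_nat]
  intro k
  have h1 : ∃ X : ℝ, 0 < X ∧ (k : ℝ≥0∞) < ∫⁻ x in Ioc 0 X, ENNReal.ofReal (|F x| ^ p * w x) := by
    have hmono : Monotone fun n : ℕ => Ioc (0 : ℝ) ((n : ℝ) + 1) := by
      intro m n hmn
      refine Ioc_subset_Ioc_right ?_
      have : (m : ℝ) ≤ n := by exact_mod_cast hmn
      linarith
    have hun : ⋃ n : ℕ, Ioc (0 : ℝ) ((n : ℝ) + 1) = Ioi 0 := by
      ext x
      rw [mem_iUnion, mem_Ioi]
      constructor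
      · rintro ⟨n, hn⟩; exact hn.1
      · intro hx
        obtain ⟨n, hn⟩ := exists_nat_ge x
        exact ⟨n, hx, by linarith⟩
    have h2 := setLIntegral_iUnion_of_directed (μ := volume)
      (fun x => ENNReal.ofReal (|F x| ^ p * w x)) hmono.directed_le
    rw [hun, h] at h2
    have h3 : (k : ℝ≥0∞) < ⨆ n : ℕ, ∫⁻ x in Ioc (0 : ℝ) ((n : ℝ) + 1), ENNReal.ofReal (|F x| ^ p * w x) := by
      rw [← h2]; exact ENNReal.natCast_lt_top k
    obtain ⟨n, hn⟩ := lt_iSup_iff.1 h3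
    exact ⟨(n : ℝ) + 1, by positivity, hn⟩
  obtain ⟨X, hX, h2⟩ := h1
  rw [Fw_lint hp hX] at h2
  have h3 : (k : ℝ) < ∫ x in (0 : ℝ)..X, |F x| ^ p * w x := by
    rw [← ENNReal.ofReal_natCast] at h2
    exact (ENNReal.ofReal_lt_ofReal_iff_of_nonneg (Nat.cast_nonneg k)).1 h2
  filter_upwards [near_zero sz sa hp hX h3, eventually_ge_atTop 1] with N h4 h5
  unfold Ls
  rw [← ENNReal.ofReal_natCast]
  exact (ENNReal.ofReal_lt_ofReal_iff_of_nonneg (Nat.cast_nonneg k)).2 (h4.trans_le (ratio_ge h5 (by linarith)))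

lemma ser_summable {p : ℝ} (hp : 1 < p) : Summable fun q : ℕ => (q.totient : ℝ) / (q : ℝ) ^ (p + 1) := by
  refine Summable.of_nonneg_of_le (fun q => by positivity) (fun q => ?_)
    (Real.summable_nat_rpow.2 (show -p < -1 by linarith))
  rcases Nat.eq_zero_or_pos q with rfl | hq
  · simp
    positivity
  · have hq0 : (0 : ℝ) < q := by exact_mod_cast hq
    rw [div_le_iff₀ (by positivity), ← Real.rpow_add hq0]
    have : -p + (p + 1) = 1 := by ring
    rw [this, Real.rpow_one]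
    exact_mod_cast q.totient_le

/-- above the critical exponent -/
lemma aboveS (ss : J_SS) {p : ℝ} (hp : 1 < p) (h : Theta < 1 - 1 / p) :
    Cs p ≠ 0 ∧ Cs p ≠ ⊤ ∧ Tendsto (Ls p) atTop (𝓝 (Cs p)) := by
  have hp0 : 0 < p := by linarith
  have h12 := half_le
  have hp2 : 2 < p := by
    have h1 : 1 / p < 1 / 2 := by linarith
    rw [div_lt_div_iff₀ hp0 two_pos] at h1
    linarith
  obtain ⟨θ, h1, h2⟩ := exists_between h
  obtain ⟨c, hc, h3⟩ := Pool.Agent.H295R2.mertens_bound (θ := Theta) (σ := θ) (by linarith)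
    Pool.Agent.H295R2.zetaSup_free h1 (by
      have : 0 < 1 / p := by positivity
      linarith)
  obtain ⟨hi, ht⟩ := ss p c θ hp2 (by linarith) h2 fun k hk => by
    have h4 := h3 (k : ℝ) (by exact_mod_cast hk)
    unfold Pool.Agent.H295R2.Mx at h4
    rw [Nat.floor_natCast] at h4
    exact h4
  have hI : ∫⁻ x in Ioi (0 : ℝ), ENNReal.ofReal (|F x| ^ p * w x) =
      ENNReal.ofReal (∫ x in Ioi (0 : ℝ), |F x| ^ p * w x) :=
    (ofReal_integral_eq_lintegral_ofReal hi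
      (Eventually.of_forall fun x => mul_nonneg (by positivity) (w_nonneg x))).symm
  have hI0 : 0 ≤ ∫ x in Ioi (0 : ℝ), |F x| ^ p * w x :=
    integral_nonneg fun x => mul_nonneg (by positivity) (w_nonneg x)
  have hS : (∑' q : ℕ, ENNReal.ofReal ((q.totient : ℝ) / (q : ℝ) ^ (p + 1))) =
      ENNReal.ofReal (∑' q : ℕ, (q.totient : ℝ) / (q : ℝ) ^ (p + 1)) :=
    (ENNReal.ofReal_tsum_of_nonneg (fun q => by positivity) (ser_summable hp)).symm
  have hS0 : 0 ≤ ∑' q : ℕ, (q.totient : ℝ) / (q : ℝ) ^ (p + 1) := tsum_nonneg fun q => by positivity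
  have hC : Cs p = ENNReal.ofReal ((2 * (∑' q : ℕ, (q.totient : ℝ) / (q : ℝ) ^ (p + 1)) *
      ∫ x in Ioi (0 : ℝ), |F x| ^ p * w x) * (3 / Real.pi ^ 2) ^ (-p)) := by
    unfold Cs
    have e2 : (2 : ℝ≥0∞) = ENNReal.ofReal 2 := by simp
    rw [hI, hS, e2, ← ENNReal.ofReal_mul (by norm_num), ← ENNReal.ofReal_mul (by positivity),
      ← ENNReal.ofReal_mul (by positivity)]
    congr 1
    have e1 : (3 / Real.pi ^ 2) ^ (-p) = (Real.pi ^ 2 / 3) ^ p := by
      rw [Real.rpow_neg (by positivity), ← Real.inv_rpow (by positivity), inv_div]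
    rw [e1]
    ring
  refine ⟨?_, ?_, ?_⟩
  · unfold Cs
    refine mul_ne_zero ?_ (mul_ne_zero (mul_ne_zero (by norm_num) (ser_ne_zero p)) ?_)
    · simp only [ne_eq, ENNReal.ofReal_eq_zero, not_le]
      positivity
    · have h5 := Fw_pos hp0.le (show (11 : ℝ) / 10 ≤ 2 by norm_num)
      exact (h5.trans_le (lintegral_mono_set Ioc_subset_Ioi_self)).ne'
  · rw [hC]
    exact ENNReal.ofReal_ne_top
  · rw [hC]
    have h6 : Tendsto (fun N : ℕ => W p N / (N : ℝ) ^ (p + 1) * (Ph N / (N : ℝ) ^ 2) ^ (-p)) atTop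
        (𝓝 ((2 * (∑' q : ℕ, (q.totient : ℝ) / (q : ℝ) ^ (p + 1)) *
      ∫ x in Ioi (0 : ℝ), |F x| ^ p * w x) * (3 / Real.pi ^ 2) ^ (-p))) :=
      ht.mul (Ph_lim.rpow_const (Or.inl (by positivity)))
    refine (ENNReal.tendsto_ofReal h6).congr' ?_
    filter_upwards [eventually_ge_atTop 1] with N hN
    unfold Ls
    rw [ratio hN]

/-- the sums -/
theorem law_sum (ss : J_SS) (sz : J_SZ) (sa : J_SA) (me : J_ME) : Law Ls Cs := by
  refine law_of (fun _ hp h => aboveS ss hp h) fun p hp ⟨_, hρ, h⟩ => ?_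
  have h1 := Fw_top me hp hρ h
  refine ⟨?_, lowerS sz sa hp h1⟩
  unfold Cs
  rw [h1, ENNReal.mul_top, ENNReal.mul_top]
  · simp only [ne_eq, ENNReal.ofReal_eq_zero, not_le]
    positivity
  · exact mul_ne_zero (by norm_num) (ser_ne_zero p)

/-- from the integral to the sum -/
lemma sum_le_int (sl : J_SL) {p : ℝ} (hp : 1 ≤ p) {N : ℕ} (hN : 1 ≤ N) :
    W p N ≤ 4 * 2 ^ p * (N : ℝ) ^ 2 * ∫ t in (0 : ℝ)..1, |E N t| ^ p := by
  have hE : ∀ t : ℝ, 0 ≤ t → t ≤ 1 →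
      (∑ d ∈ Finset.Icc 1 N, -Mt (N / d) * ps ((d : ℝ) * t)) + -(1 / 2) = E N t := by
    intro t h0 h1
    rw [Pool.Agent.Q277.FA.E_eq N hN h0 h1, ← Finset.sum_neg_distrib, ← sub_eq_add_neg]
    congr 1
    refine Finset.sum_congr rfl fun d _ => by ring
  have h := sl p hp N hN (fun d => -Mt (N / d)) (-(1 / 2))
  have h1 : ∫ t in (0 : ℝ)..1, |(∑ d ∈ Finset.Icc 1 N, -Mt (N / d) * ps ((d : ℝ) * t)) + -(1 / 2)| ^ p =
      ∫ t in (0 : ℝ)..1, |E N t| ^ p := by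
    refine intervalIntegral.integral_congr fun t ht => ?_
    rw [uIcc_of_le zero_le_one] at ht
    show |(∑ d ∈ Finset.Icc 1 N, -Mt (N / d) * ps ((d : ℝ) * t)) + -(1 / 2)| ^ p = |E N t| ^ p
    rw [hE t ht.1 ht.2]
  rw [← h1]
  refine le_trans (le_of_eq ?_) h
  unfold W
  refine Finset.sum_congr rfl fun q hq => ?_
  have h2 : 0 ≤ fp q := by unfold fp; positivity
  have h3 : fp q ≤ 1 := by
    unfold FN at hq
    rw [Finset.mem_filter, Finset.mem_product, Finset.mem_Icc, Finset.mem_Icc] at hq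
    unfold fp
    rw [div_le_one (by exact_mod_cast hq.1.2.1)]
    exact_mod_cast hq.2.1
  show |E N (fp q)| ^ p = |(∑ d ∈ Finset.Icc 1 N, -Mt (N / d) * ps ((d : ℝ) * fp q)) + -(1 / 2)| ^ p
  rw [hE _ h2 h3]

/-- power means -/
lemma D_mean {p : ℝ} (hp : 1 ≤ p) {N : ℕ} (hN : 1 ≤ N) : D 1 N ^ p ≤ ((N : ℝ) ^ 2) ^ (p - 1) * D p N := by
  have h1 := Real.rpow_sum_le_const_mul_sum_rpow_of_nonneg (FN N) (f := fun q =>
    |fp q - (cnt N (fp q) : ℝ) / ((FN N).card : ℝ)|) hp (fun q _ => abs_nonneg _)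
  have h2 : D 1 N = ∑ q ∈ FN N, |fp q - (cnt N (fp q) : ℝ) / ((FN N).card : ℝ)| := by
    unfold D
    simp only [Real.rpow_one]
  rw [h2]
  refine h1.trans ?_
  refine mul_le_mul_of_nonneg_right ?_ (D_nonneg p N)
  rw [card_FN]
  exact Real.rpow_le_rpow (le_trans zero_le_one (Ph_pos hN)) (Ph_le N) (by linarith)

/-- the exponents of the sums -/
theorem expoS (sl : J_SL) (sz : J_SZ) (sa : J_SA) (se : J_SE) (eu : J_EU) (p : ℝ) (hp : 1 ≤ p) :
    Tendsto (fun N : ℕ => Real.log (D p N) / Real.log N) atTop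
      (𝓝 (max (1 - p) (2 - 2 * p + p * Th))) := by
  have hp0 : 0 < p := by linarith
  have hmax : max (1 - p) (2 - 2 * p + p * Th) = 2 - 2 * p + p * max Th (1 - 1 / p) := by
    have e1 : 1 - p = 2 - 2 * p + p * (1 - 1 / p) := by field_simp; ring
    rw [e1, max_add_add_left, max_comm, mul_max_of_nonneg _ _ hp0.le]
  refine Pool.Agent.H295R2.log_limit (fun ε hε => ?_) (fun ε hε => ?_)
  · rcases le_total (1 - p) (2 - 2 * p + p * Th) with h | h
    · rw [max_eq_right h]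
      filter_upwards [se (ε / p) (by positivity), eventually_ge_atTop 1] with N h1 h2
      have hN0 : (0 : ℝ) < N := by exact_mod_cast h2
      have h3 := D_mean hp h2
      have h4 : (N : ℝ) ^ (p * Th - ε) ≤ D 1 N ^ p := by
        calc (N : ℝ) ^ (p * Th - ε) = ((N : ℝ) ^ (Th - ε / p)) ^ p := by
              rw [← Real.rpow_mul hN0.le]
              congr 1
              field_simp
          _ ≤ _ := Real.rpow_le_rpow (by positivity) h1 hp0.le
      have h5 : ((N : ℝ) ^ 2) ^ (p - 1) = (N : ℝ) ^ (2 * (p - 1)) := by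
        rw [← Real.rpow_natCast, ← Real.rpow_mul hN0.le]
        norm_num
      rw [h5] at h3
      have h6 := h4.trans h3
      have h7 : (N : ℝ) ^ (p * Th - ε) = (N : ℝ) ^ (2 * (p - 1)) * (N : ℝ) ^ (2 - 2 * p + p * Th - ε) := by
        rw [← Real.rpow_add hN0]
        congr 1
        ring
      rw [h7] at h6
      exact le_of_mul_le_mul_left h6 (by positivity)
    · rw [max_eq_left h]
      have hpos : 0 < ∫ x in (0 : ℝ)..2, |F x| ^ p * w x := by
        have h1 := Fw_pos hp0.le (show (11 : ℝ) / 10 ≤ 2 by norm_num)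
        rw [Fw_lint hp two_pos] at h1
        exact ENNReal.ofReal_pos.1 h1
      have h3 : ∀ᶠ N : ℕ in atTop, (1 : ℝ) ≤ ((∫ x in (0 : ℝ)..2, |F x| ^ p * w x) / 2) * (N : ℝ) ^ ε := by
        have h4 : Tendsto (fun N : ℕ => ((∫ x in (0 : ℝ)..2, |F x| ^ p * w x) / 2) * (N : ℝ) ^ ε) atTop atTop :=
          ((tendsto_rpow_atTop hε).comp tendsto_natCast_atTop_atTop).const_mul_atTop (by positivity)
        exact h4.eventually_ge_atTop 1
      filter_upwards [near_zero sz sa hp two_pos (half_lt_self hpos), h3, eventually_ge_atTop 1] with N h4 h5 h6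
      have hN0 : (0 : ℝ) < N := by exact_mod_cast h6
      have h7 := h4.le.trans (ratio_ge h6 hp0.le)
      have h8 : (N : ℝ) ^ (1 - p - ε) * ((N : ℝ) ^ (p - 1) * (N : ℝ) ^ ε) = 1 := by
        rw [← Real.rpow_add hN0, ← Real.rpow_add hN0]
        have : 1 - p - ε + (p - 1 + ε) = 0 := by ring
        rw [this, Real.rpow_zero]
      have h9 : 1 ≤ ((N : ℝ) ^ (p - 1) * (N : ℝ) ^ ε) * D p N := by
        refine h5.trans ?_
        calc _ ≤ ((N : ℝ) ^ (p - 1) * D p N) * (N : ℝ) ^ ε := mul_le_mul_of_nonneg_right h7 (by positivity)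
          _ = _ := by ring
      calc (N : ℝ) ^ (1 - p - ε) = (N : ℝ) ^ (1 - p - ε) * 1 := (mul_one _).symm
        _ ≤ (N : ℝ) ^ (1 - p - ε) * (((N : ℝ) ^ (p - 1) * (N : ℝ) ^ ε) * D p N) :=
            mul_le_mul_of_nonneg_left h9 (by positivity)
        _ = ((N : ℝ) ^ (1 - p - ε) * ((N : ℝ) ^ (p - 1) * (N : ℝ) ^ ε)) * D p N := by ring
        _ = D p N := by rw [h8, one_mul]
  · rw [hmax]
    obtain ⟨A, hA, h1⟩ := eu p (ε / (2 * p)) hp (by positivity)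
    set κ := max Th (1 - 1 / p) with hκ
    -- `Ph N ≥ N²/4` for large `N`
    have h14 : (1 : ℝ) / 4 < 3 / Real.pi ^ 2 := by
      rw [div_lt_div_iff₀ (by norm_num) (by positivity)]
      have := Real.pi_lt_d2
      nlinarith [Real.pi_pos]
    have h2 : ∀ᶠ N : ℕ in atTop, 4 * 2 ^ p * A ^ p * 4 ^ p ≤ (N : ℝ) ^ (ε / 2) :=
      ((tendsto_rpow_atTop (by positivity)).comp tendsto_natCast_atTop_atTop).eventually_ge_atTop _
    filter_upwards [h2, eventually_ge_atTop 1, Ph_lim.eventually_const_lt h14] with N h3 h4 h5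
    have hN0 : (0 : ℝ) < N := by exact_mod_cast h4
    have hP0 : 0 < Ph N := lt_of_lt_of_le one_pos (Ph_pos h4)
    rw [lt_div_iff₀ (by positivity)] at h5
    have h6 := sum_le_int sl hp h4
    have hI0 : 0 ≤ ∫ t in (0 : ℝ)..1, |E N t| ^ p :=
      intervalIntegral.integral_nonneg zero_le_one fun t _ => by positivity
    have h7 : ∫ t in (0 : ℝ)..1, |E N t| ^ p ≤ A ^ p * (N : ℝ) ^ (p * κ + ε / 2) := by
      have h8 := Real.rpow_le_rpow (by positivity) (h1 N h4) hp0.le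
      rw [← Real.rpow_mul hI0, one_div_mul_cancel hp0.ne', Real.rpow_one,
        Real.mul_rpow hA.le (by positivity), ← Real.rpow_mul hN0.le] at h8
      have e1 : (κ + ε / (2 * p)) * p = p * κ + ε / 2 := by field_simp
      rw [e1] at h8
      exact h8
    have h9 : ((N : ℝ) ^ 2 / 4) ^ p ≤ Ph N ^ p := Real.rpow_le_rpow (by positivity) (by linarith) hp0.le
    rw [D_eq h4, div_le_iff₀ (by positivity)]
    have e2 : ((N : ℝ) ^ 2 / 4) ^ p = (N : ℝ) ^ (2 * p) / 4 ^ p := by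
      rw [Real.div_rpow (by positivity) (by norm_num), ← Real.rpow_natCast, ← Real.rpow_mul hN0.le]
      norm_num
    rw [e2] at h9
    calc W p N ≤ 4 * 2 ^ p * (N : ℝ) ^ 2 * ∫ t in (0 : ℝ)..1, |E N t| ^ p := h6
      _ ≤ 4 * 2 ^ p * (N : ℝ) ^ 2 * (A ^ p * (N : ℝ) ^ (p * κ + ε / 2)) :=
          mul_le_mul_of_nonneg_left h7 (by positivity)
      _ = (4 * 2 ^ p * A ^ p * 4 ^ p) * ((N : ℝ) ^ (p * κ + ε / 2) * (N : ℝ) ^ 2 / 4 ^ p) := by
          field_simp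
      _ ≤ (N : ℝ) ^ (ε / 2) * ((N : ℝ) ^ (p * κ + ε / 2) * (N : ℝ) ^ 2 / 4 ^ p) :=
          mul_le_mul_of_nonneg_right h3 (by positivity)
      _ = (N : ℝ) ^ (2 - 2 * p + p * κ + ε) * ((N : ℝ) ^ (2 * p) / 4 ^ p) := by
          have e3 : (N : ℝ) ^ 2 = (N : ℝ) ^ (2 : ℝ) := by norm_num
          rw [e3, ← mul_div_assoc, ← mul_div_assoc, ← Real.rpow_add hN0, ← Real.rpow_add hN0, ← Real.rpow_add hN0]
          congr 2
          ring
      _ ≤ (N : ℝ) ^ (2 - 2 * p + p * κ + ε) * Ph N ^ p := mul_le_mul_of_nonneg_left h9 (by positivity)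

end Pool.Agent.Q120.FA
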