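import Pool.Agent.Q120.FA.Fin3

set_option autoImplicit false

/-! # Project FA: the exponent at one single `p` -/

namespace Pool.Agent.Q120.FA

open MeasureTheory Filter Topology Set
open scoped ENNReal
open Pool.Agent.Q120.NB (zeros Theta half_le Theta_le_one re_le free exists_zero Theta_le_iff rh_iff)

/-- the exponent at one `p` decides about the half-plane `Re s > 1 - 1/p` (for `p ≤ 2`: about the Riemann hypothesis) -/
theorem one_p (f : ℕ → ℝ) (p : ℝ) (h : Tendsto f atTop (𝓝 (max Th (1 - 1 / p)))) :
    (p ≤ 2 → 1 ≤ p → (RiemannHypothesis ↔ Tendsto f atTop (𝓝 (1 / 2)))) ∧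
    (2 ≤ p → ((∀ s : ℂ, 1 - 1 / p < s.re → riemannZeta s ≠ 0) ↔ Tendsto f atTop (𝓝 (1 - 1 / p)))) := by
  have hT : Th = Theta := Th_eq
  refine ⟨fun hp h1 => ?_, fun hp => ?_⟩
  · have h3 : 1 / 2 ≤ 1 / p := by
      rw [div_le_div_iff₀ two_pos (by linarith)]
      linarith
    have h4 := half_le
    have h5 : max Th (1 - 1 / p) = Theta := by
      rw [hT]
      exact max_eq_left (by linarith)
    rw [h5] at h
    rw [rh_iff]
    constructor
    · intro h6
      rw [← le_antisymm h6 h4]
      exact h
    · intro h6
      exact (tendsto_nhds_unique h h6).le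
  · have h3 : 1 / p ≤ 1 / 2 := by
      rw [div_le_div_iff₀ (by linarith) two_pos]
      linarith
    rw [← Theta_le_iff (by linarith)]
    constructor
    · intro h6
      have h5 : max Th (1 - 1 / p) = 1 - 1 / p := by
        rw [hT]
        exact max_eq_right h6
      rw [h5] at h
      exact h
    · intro h6
      have h7 := tendsto_nhds_unique h h6
      rw [← hT]
      rw [max_eq_right_iff] at h7
      exact h7

end Pool.Agent.Q120.FA
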