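import Mathlib

set_option autoImplicit false

/-! # Project FA, sixth part: a lemma on logarithmic means and logarithmic density -/

namespace Pool.Agent.Q120.FA

open Filter Topology

/-- JOB W10 (0.6 h). Let `0 ≤ a(N)`, `liminf a(N) ≥ S` and let the mean of `a` with the weights `(log N)/N` tend to `S`
(`∑_{N≤X} (log N)/N ~ (log X)²/2`). Then the set where `a(N) > S + ε` has logarithmic density `0`.
Proof. For `0 < η < ε` and `N ≥ N₀` `a(N) ≥ S - η`, so `∑_{N≤X} ((log N)/N) (a(N) - S + η)^+ ≤ (η/2 + o(1)) (log X)²`, and the `N` with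
`a(N) > S + ε` contribute at least `ε` times their weight: `∑_{N ≤ X, a(N) > S+ε} (log N)/N ≤ (η/ε) (log X)²` for large `X`; as `η` is
arbitrary this is `o((log X)²)`. For `0 < δ < 1` the `N ≤ X^δ` contribute at most `δ log X + 1` to `∑ 1/N`, and for `N > X^δ`
`1/N ≤ (log N)/(δ N log X)`. -/
def J_W10 : Prop := ∀ (a : ℕ → ℝ) (S : ℝ), (∀ N, 0 ≤ a N) → (∀ c : ℝ, c < S → ∀ᶠ N : ℕ in atTop, c ≤ a N) →
  Tendsto (fun X : ℕ => (∑ N ∈ Finset.Icc 1 X, Real.log N / N * a N) / Real.log X ^ 2) atTop (𝓝 (S / 2)) →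
  ∀ ε : ℝ, 0 < ε → Tendsto (fun X : ℕ => (∑ N ∈ (Finset.Icc 1 X).filter (fun N => S + ε < a N), 1 / (N : ℝ)) / Real.log X)
    atTop (𝓝 0)

/-- JOB W11 (0.4 h): `∑_{N≤X} (log N)/N ~ (log X)²/2`, and the transfer to other weights.
If `b(N)/((log N)/N) → 0`... the form needed: if `a ≥ 0`, `g(N) → g`, `g > 0` and the weighted means of `a` tend to `S/2`, then those of
`g(N) a(N)` tend to `g S/2`; if `a(N) → ∞` then the weighted means tend to `∞`. -/
def J_W11 : Prop :=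
  (Tendsto (fun X : ℕ => (∑ N ∈ Finset.Icc 1 X, Real.log N / N) / Real.log X ^ 2) atTop (𝓝 (1 / 2))) ∧
  (∀ (a g : ℕ → ℝ) (S G : ℝ), (∀ N, 0 ≤ a N) → Tendsto g atTop (𝓝 G) →
    Tendsto (fun X : ℕ => (∑ N ∈ Finset.Icc 1 X, Real.log N / N * a N) / Real.log X ^ 2) atTop (𝓝 (S / 2)) →
    Tendsto (fun X : ℕ => (∑ N ∈ Finset.Icc 1 X, Real.log N / N * (g N * a N)) / Real.log X ^ 2) atTop (𝓝 (G * S / 2))) ∧
  (∀ a : ℕ → ℝ, (∀ N, 0 ≤ a N) → Tendsto a atTop atTop →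
    Tendsto (fun X : ℕ => (∑ N ∈ Finset.Icc 1 X, Real.log N / N * a N) / Real.log X ^ 2) atTop atTop)

end Pool.Agent.Q120.FA
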