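import Pool.Agent.Q120.FA.Stm5
import Pool.Agent.Q120.FA.Stm6
import Pool.Agent.Q120.FA.Fin3

set_option autoImplicit false

/-! # Project FA: Franel's integral and Franel's sum, assembly -/

namespace Pool.Agent.Q120.FA

open MeasureTheory Filter Topology Set

/-- `(N log N)^(-1) ∫ E_N²` -/
noncomputable def aQ (N : ℕ) : ℝ := FI N / (N * Real.log N)

/-- `N D_2(N)/log N` -/
noncomputable def bD (N : ℕ) : ℝ := N * D 2 N / Real.log N

/-- the constant for the integral -/
noncomputable def SQ : ℝ := zs / (12 * z3)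

/-- log density zero -/
def Null (P : ℕ → Prop) : Prop := by
  classical
  exact Tendsto (fun X : ℕ => (∑ N ∈ (Finset.Icc 1 X).filter P, 1 / (N : ℝ)) / Real.log X) atTop (𝓝 0)

lemma FI_nonneg (N : ℕ) : 0 ≤ FI N := intervalIntegral.integral_nonneg zero_le_one fun t _ => sq_nonneg _

lemma log_nonneg' (N : ℕ) : 0 ≤ Real.log N := Real.log_natCast_nonneg N

lemma aQ_nonneg (N : ℕ) : 0 ≤ aQ N := div_nonneg (FI_nonneg N) (mul_nonneg (Nat.cast_nonneg _) (log_nonneg' N))

lemma bD_nonneg (N : ℕ) : 0 ≤ bD N := div_nonneg (mul_nonneg (Nat.cast_nonneg _) (D_nonneg 2 N)) (log_nonneg' N)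

lemma D2_eq (w0 : J_W0) {N : ℕ} (hN : 1 ≤ N) : D 2 N = (FI N - 1 / 3) / Ph N := by
  have h0 : 0 < Ph N := lt_of_lt_of_le one_pos (Ph_pos hN)
  have h1 : W 2 N = Ph N * (FI N - 1 / 3) := w0 N hN
  rw [D_eq hN, h1]
  have h2 : Ph N ^ (2 : ℝ) = Ph N ^ 2 := by norm_num
  rw [h2]
  field_simp

/-- `N²/Φ(N)` -/
noncomputable def gg (N : ℕ) : ℝ := (N : ℝ) ^ 2 / Ph N

/-- the small term -/
noncomputable def rr (N : ℕ) : ℝ := (N : ℝ) / (3 * Ph N * Real.log N)

lemma gg_lim : Tendsto gg atTop (𝓝 (Real.pi ^ 2 / 3)) := by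
  have h := Ph_lim.inv₀ (by positivity)
  rw [inv_div] at h
  refine h.congr fun N => ?_
  unfold gg
  rw [inv_div]

lemma bD_eq (w0 : J_W0) {N : ℕ} (hN : 2 ≤ N) : bD N = gg N * aQ N - rr N := by
  have h1 : 1 ≤ N := by omega
  have h0 : 0 < Ph N := lt_of_lt_of_le one_pos (Ph_pos h1)
  have hN0 : (0 : ℝ) < N := by exact_mod_cast h1
  have hl : 0 < Real.log N := Real.log_pos (by exact_mod_cast hN)
  unfold bD gg aQ rr
  rw [D2_eq w0 h1]
  field_simp

lemma rr_lim : Tendsto rr atTop (𝓝 0) := by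
  have h1 : Tendsto (fun N : ℕ => gg N / (3 * (N : ℝ) * Real.log N)) atTop (𝓝 0) := by
    refine gg_lim.div_atTop ?_
    refine Tendsto.atTop_mul_atTop₀ ?_ ?_
    · exact tendsto_natCast_atTop_atTop.const_mul_atTop (by norm_num)
    · exact Real.tendsto_log_atTop.comp tendsto_natCast_atTop_atTop
  refine h1.congr' ?_
  filter_upwards [eventually_ge_atTop 2] with N hN
  have hN1 : 1 ≤ N := by omega
  have h0 : 0 < Ph N := lt_of_lt_of_le one_pos (Ph_pos hN1)
  have hN0 : (0 : ℝ) < N := by exact_mod_cast hN1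
  have hl : 0 < Real.log N := Real.log_pos (by exact_mod_cast hN)
  unfold gg rr
  field_simp

lemma rr_nonneg (N : ℕ) : 0 ≤ rr N := by
  unfold rr
  have h : 0 ≤ Ph N := by unfold Ph; positivity
  have := log_nonneg' N
  positivity

/-- lower limits: from the integral to the sum -/
lemma low_D (w0 : J_W0) (h : ∀ c : ℝ, c < SQ → ∀ᶠ N : ℕ in atTop, c ≤ aQ N) :
    ∀ d : ℝ, d < Real.pi ^ 2 / 3 * SQ → ∀ᶠ N : ℕ in atTop, d ≤ bD N := by
  intro d hd
  rcases le_or_gt d 0 with h0 | h0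
  · exact Eventually.of_forall fun N => h0.trans (bD_nonneg N)
  · have hG : 0 < Real.pi ^ 2 / 3 := by positivity
    have h1 : d / (Real.pi ^ 2 / 3) < SQ := by
      rw [div_lt_iff₀ hG]
      linarith
    obtain ⟨c, hc1, hc2⟩ := exists_between h1
    rw [div_lt_iff₀ hG] at hc1
    have h2 : Tendsto (fun N => gg N * c - rr N) atTop (𝓝 (Real.pi ^ 2 / 3 * c - 0)) :=
      (gg_lim.mul_const c).sub rr_lim
    rw [sub_zero] at h2
    filter_upwards [h c hc2, h2.eventually_const_lt (show d < Real.pi ^ 2 / 3 * c by linarith), eventually_ge_atTop 2]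
      with N h3 h4 h5
    rw [bD_eq w0 h5]
    have h6 : 0 ≤ gg N := by
      unfold gg
      have : 0 ≤ Ph N := by unfold Ph; positivity
      positivity
    nlinarith [mul_le_mul_of_nonneg_left h3 h6]

lemma top_D (w0 : J_W0) (h : Tendsto aQ atTop atTop) : Tendsto bD atTop atTop := by
  have h1 : Tendsto (fun N => gg N * aQ N) atTop atTop := gg_lim.pos_mul_atTop (by positivity) h
  have h2 : Tendsto (fun N => gg N * aQ N + -rr N) atTop atTop := h1.atTop_add rr_lim.neg
  refine h2.congr' ?_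
  filter_upwards [eventually_ge_atTop 2] with N hN
  rw [bD_eq w0 hN]
  ring

/-- the mean with the weights `(log N)/N` -/
noncomputable def mean (a : ℕ → ℝ) (X : ℕ) : ℝ := (∑ N ∈ Finset.Icc 1 X, Real.log N / N * a N) / Real.log X ^ 2

lemma mean_Q (X : ℕ) (hX : 1 ≤ X) :
    (∑ N ∈ Finset.Icc 1 X, FI N / (N : ℝ) ^ 2) / Real.log X ^ 2 = mean aQ X + FI 1 / Real.log X ^ 2 := by
  unfold mean
  rw [← add_div]
  congr 1
  have h1 : Finset.Icc 1 X = insert 1 (Finset.Icc 2 X) := by
    ext N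
    simp only [Finset.mem_insert, Finset.mem_Icc]
    omega
  have h2 : (1 : ℕ) ∉ Finset.Icc 2 X := by simp
  rw [h1, Finset.sum_insert h2, Finset.sum_insert h2]
  have h3 : ∑ N ∈ Finset.Icc 2 X, FI N / (N : ℝ) ^ 2 = ∑ N ∈ Finset.Icc 2 X, Real.log N / N * aQ N := by
    refine Finset.sum_congr rfl fun N hN => ?_
    rw [Finset.mem_Icc] at hN
    have hN0 : (0 : ℝ) < N := by
      have : 0 < N := by omega
      exact_mod_cast this
    have hl : 0 < Real.log N := Real.log_pos (by exact_mod_cast hN.1)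
    unfold aQ
    field_simp
  rw [h3]
  simp
  ring

lemma mean_D (w0 : J_W0) (X : ℕ) (hX : 1 ≤ X) :
    (∑ N ∈ Finset.Icc 1 X, D 2 N) / Real.log X ^ 2 = mean bD X := by
  unfold mean
  congr 1
  refine Finset.sum_congr rfl fun N hN => ?_
  rw [Finset.mem_Icc] at hN
  rcases Nat.lt_or_ge 1 N with h | h
  · have hN0 : (0 : ℝ) < N := by
      have : 0 < N := by omega
      exact_mod_cast this
    have hl : 0 < Real.log N := Real.log_pos (by exact_mod_cast h)
    unfold bD
    field_simp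
  · have h1 : N = 1 := by omega
    subst h1
    have h2 : D 2 1 = 0 := by
      rw [D2_eq w0 le_rfl]
      have h3 : FI 1 = 1 / 3 := by
        have h4 : ∀ t ∈ Ioo (0 : ℝ) 1, E 1 t ^ 2 = t ^ 2 := by
          intro t ht
          have h5 : cnt 1 t = 0 := by
            unfold cnt
            rw [Finset.card_eq_zero, Finset.filter_eq_empty_iff]
            rintro ⟨a, b⟩ hq ⟨-, -, h6⟩
            rw [Finset.mem_product, Finset.mem_Icc, Finset.mem_Icc] at hq
            have ha : a = 1 := by omega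
            have hb : b = 1 := by omega
            subst ha hb
            simp at h6
            linarith [ht.2]
          unfold E
          rw [h5]
          simp
        unfold FI
        have h7 : ∫ t in (0 : ℝ)..1, E 1 t ^ 2 = ∫ t in (0 : ℝ)..1, t ^ 2 := by
          rw [intervalIntegral.integral_of_le zero_le_one, intervalIntegral.integral_of_le zero_le_one,
            integral_Ioc_eq_integral_Ioo, integral_Ioc_eq_integral_Ioo]
          exact setIntegral_congr_fun measurableSet_Ioo h4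
        rw [h7, integral_pow]
        norm_num
      rw [h3]
      simp
    rw [h2]
    simp

lemma log_sq_top : Tendsto (fun X : ℕ => Real.log X ^ 2) atTop atTop :=
  (tendsto_pow_atTop two_ne_zero).comp (Real.tendsto_log_atTop.comp tendsto_natCast_atTop_atTop)

/-- the logarithmic means: finite case -/
lemma mean_fin (w0 : J_W0) (w11 : J_W11)
    (h : Tendsto (fun X : ℕ => (∑ N ∈ Finset.Icc 1 X, FI N / (N : ℝ) ^ 2) / Real.log X ^ 2) atTop (𝓝 (SQ / 2))) :
    Tendsto (mean aQ) atTop (𝓝 (SQ / 2)) ∧ Tendsto (mean bD) atTop (𝓝 (Real.pi ^ 2 / 3 * SQ / 2)) := by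
  have h1 : Tendsto (mean aQ) atTop (𝓝 (SQ / 2)) := by
    have h2 : Tendsto (fun X : ℕ => (∑ N ∈ Finset.Icc 1 X, FI N / (N : ℝ) ^ 2) / Real.log X ^ 2 -
        FI 1 / Real.log X ^ 2) atTop (𝓝 (SQ / 2 - 0)) := h.sub (tendsto_const_nhds.div_atTop log_sq_top)
    rw [sub_zero] at h2
    refine h2.congr' ?_
    filter_upwards [eventually_ge_atTop 1] with X hX
    rw [mean_Q X hX]
    ring
  refine ⟨h1, ?_⟩
  obtain ⟨h2, h3, -⟩ := w11
  have h4 : Tendsto (mean (fun N => gg N * aQ N)) atTop (𝓝 (Real.pi ^ 2 / 3 * SQ / 2)) :=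
    h3 aQ gg SQ _ aQ_nonneg gg_lim h1
  have h5 : Tendsto (mean rr) atTop (𝓝 0) := by
    have h6 := h3 (fun _ => 1) rr 1 0 (fun _ => zero_le_one) rr_lim (by simpa using h2)
    simp only [mul_one, zero_mul, zero_div] at h6
    exact h6
  have h7 : Tendsto (fun X => mean (fun N => gg N * aQ N) X - mean rr X) atTop (𝓝 (Real.pi ^ 2 / 3 * SQ / 2 - 0)) :=
    h4.sub h5
  rw [sub_zero] at h7
  refine h7.congr fun X => ?_
  unfold mean
  rw [← sub_div, ← Finset.sum_sub_distrib]
  congr 1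
  refine Finset.sum_congr rfl fun N hN => ?_
  rw [Finset.mem_Icc] at hN
  rcases Nat.lt_or_ge 1 N with h | h
  · rw [bD_eq w0 h]
    ring
  · have h1 : N = 1 := by omega
    subst h1
    simp

lemma mean_inf (w0 : J_W0) (w11 : J_W11) (h : Tendsto aQ atTop atTop) :
    Tendsto (mean aQ) atTop atTop ∧ Tendsto (mean bD) atTop atTop :=
  ⟨w11.2.2 aQ aQ_nonneg h, w11.2.2 bD bD_nonneg (top_D w0 h)⟩

/-- a finite limit of the means gives bounded values -/
lemma freq_of_mean (w11 : J_W11) {a : ℕ → ℝ} (ha : ∀ N, 0 ≤ a N) {S : ℝ} (h : Tendsto (mean a) atTop (𝓝 S)) :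
    ∃ C : ℝ, ∃ᶠ N : ℕ in atTop, a N ≤ C := by
  by_contra hcon
  push Not at hcon
  have h1 : Tendsto a atTop atTop := by
    rw [tendsto_atTop]
    intro C
    filter_upwards [hcon C] with N h3
    exact h3.le
  exact not_tendsto_nhds_of_tendsto_atTop (w11.2.2 a ha h1) S h

/-- density -/
lemma null_of (w10 : J_W10) {a : ℕ → ℝ} (ha : ∀ N, 0 ≤ a N) {S : ℝ} (hl : ∀ c : ℝ, c < S → ∀ᶠ N : ℕ in atTop, c ≤ a N)
    (h : Tendsto (mean a) atTop (𝓝 (S / 2))) {ε : ℝ} (hε : 0 < ε) : Null (fun N => ε < |a N - S|) := by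
  classical
  have h1 := w10 a S ha hl h ε hε
  obtain ⟨N0, h2⟩ := eventually_atTop.1 (hl (S - ε) (by linarith))
  unfold Null
  have h3 : Tendsto (fun X : ℕ => (∑ N ∈ (Finset.Icc 1 X).filter (fun N => S + ε < a N), 1 / (N : ℝ)) / Real.log X +
      (∑ N ∈ Finset.Icc 1 N0, 1 / (N : ℝ)) / Real.log X) atTop (𝓝 (0 + 0)) :=
    h1.add (tendsto_const_nhds.div_atTop (Real.tendsto_log_atTop.comp tendsto_natCast_atTop_atTop))
  rw [add_zero] at h3
  refine squeeze_zero' (Eventually.of_forall fun X => ?_) (Eventually.of_forall fun X => ?_) h3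
  · exact div_nonneg (Finset.sum_nonneg fun N _ => by positivity) (log_nonneg' X)
  · rw [← add_div]
    refine div_le_div_of_nonneg_right ?_ (log_nonneg' X)
    have hsub : (Finset.Icc 1 X).filter (fun N => ε < |a N - S|) ⊆
        (Finset.Icc 1 X).filter (fun N => S + ε < a N) ∪ Finset.Icc 1 N0 := by
      intro N hN
      rw [Finset.mem_filter, Finset.mem_Icc] at hN
      rw [Finset.mem_union, Finset.mem_filter, Finset.mem_Icc, Finset.mem_Icc]
      rcases le_or_gt N N0 with h4 | h4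
      · exact Or.inr ⟨hN.1.1, h4⟩
      · refine Or.inl ⟨hN.1, ?_⟩
        have h5 := h2 N h4.le
        rcases lt_abs.1 hN.2 with h6 | h6
        · linarith
        · linarith
    refine (Finset.sum_le_sum_of_subset_of_nonneg hsub fun N _ _ => by positivity).trans ?_
    have h7 := Finset.sum_union_inter (s₁ := (Finset.Icc 1 X).filter (fun N => S + ε < a N)) (s₂ := Finset.Icc 1 N0)
      (f := fun N : ℕ => 1 / (N : ℝ))
    have h8 : 0 ≤ ∑ N ∈ (Finset.Icc 1 X).filter (fun N => S + ε < a N) ∩ Finset.Icc 1 N0, 1 / (N : ℝ) :=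
      Finset.sum_nonneg fun N _ => by positivity
    linarith

end Pool.Agent.Q120.FA
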