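import Pool.Agent.Q120.FA.Fin5
import Pool.Agent.Q120.FX.Stm1
import Pool.Agent.Q120.FX.Low
import Pool.Agent.W120.WM.Lim

set_option autoImplicit false

/-! # Project FA: Franel's integral and Franel's sum, the main theorem -/

namespace Pool.Agent.Q120.FA

open MeasureTheory Filter Topology Set

/-- a limit, `∞` if `ZC` fails -/
def Lim (f : ℕ → ℝ) (c : ℝ) : Prop := (ZC → Tendsto f atTop (𝓝 c)) ∧ (¬ ZC → Tendsto f atTop atTop)

/-- the weak Mertens hypothesis -/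
def WMH : Prop := ∃ C : ℝ, ∀ x : ℝ, 2 ≤ x → ∫ u in (1 : ℝ)..x, (Mr u / u) ^ 2 ≤ C * Real.log x

lemma wmh_iff : WMH ↔ ZC := by
  obtain ⟨K, -, -, h⟩ := Pool.Agent.W120.WM.final2 Pool.Agent.W120.WM.sharpT
  exact h.out 0 2

lemma evlog : ∀ᶠ N : ℕ in atTop, 0 < (N : ℝ) ∧ 0 < Real.log N := by
  filter_upwards [eventually_ge_atTop 2] with N hN
  refine ⟨?_, Real.log_pos (by exact_mod_cast hN)⟩
  have : 0 < N := by omega
  exact_mod_cast this

lemma aQ_le {c : ℝ} {N : ℕ} (h : 0 < (N : ℝ) ∧ 0 < Real.log N) : c ≤ aQ N ↔ c * (N * Real.log N) ≤ FI N := by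
  unfold aQ
  rw [le_div_iff₀ (mul_pos h.1 h.2)]

lemma aQ_ge {c : ℝ} {N : ℕ} (h : 0 < (N : ℝ) ∧ 0 < Real.log N) : aQ N ≤ c ↔ FI N ≤ c * (N * Real.log N) := by
  unfold aQ
  rw [div_le_iff₀ (mul_pos h.1 h.2)]

lemma bD_ge {c : ℝ} {N : ℕ} (h : 0 < (N : ℝ) ∧ 0 < Real.log N) : bD N ≤ c ↔ D 2 N ≤ c * (Real.log N / N) := by
  unfold bD
  rw [div_le_iff₀ h.2, ← mul_div_assoc, le_div_iff₀ h.1, mul_comm (D 2 N)]

lemma bD_le {c : ℝ} {N : ℕ} (h : 0 < (N : ℝ) ∧ 0 < Real.log N) : c ≤ bD N ↔ c * (Real.log N / N) ≤ D 2 N := by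
  unfold bD
  rw [le_div_iff₀ h.2, ← mul_div_assoc, div_le_iff₀ h.1, mul_comm (D 2 N)]

/-- the four equivalent statements -/
theorem tfae (w0 : J_W0) (w5 : J_W5) (w6 : J_W6) (w11 : J_W11) : [WMH, ZC,
    ∃ C : ℝ, ∃ᶠ N : ℕ in atTop, FI N ≤ C * (N * Real.log N),
    ∃ C : ℝ, ∃ᶠ N : ℕ in atTop, D 2 N ≤ C * (Real.log N / N)].TFAE := by
  have hfin : ZC → Tendsto (mean aQ) atTop (𝓝 (SQ / 2)) ∧ Tendsto (mean bD) atTop (𝓝 (Real.pi ^ 2 / 3 * SQ / 2)) :=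
    fun hZ => mean_fin w0 w11 (by
      have h := w6 hZ
      have h2 : SQ / 2 = zs / (24 * z3) := by
        unfold SQ
        rw [div_div]
        congr 1
        ring
      rw [h2]
      exact h)
  tfae_have 1 ↔ 2 := wmh_iff
  tfae_have 2 → 3 := fun hZ => by
    obtain ⟨C, hC⟩ := freq_of_mean w11 aQ_nonneg (hfin hZ).1
    refine ⟨C, (hC.and_eventually evlog).mono fun N hN => (aQ_ge hN.2).1 hN.1⟩
  tfae_have 2 → 4 := fun hZ => by
    obtain ⟨C, hC⟩ := freq_of_mean w11 bD_nonneg (hfin hZ).2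
    refine ⟨C, (hC.and_eventually evlog).mono fun N hN => (bD_ge hN.2).1 hN.1⟩
  tfae_have 3 → 2 := fun ⟨C, hC⟩ => by
    by_contra hZ
    obtain ⟨N, h1, h2, h3⟩ := (hC.and_eventually (((w5 hZ).eventually_gt_atTop C).and evlog)).exists
    exact absurd ((aQ_ge h3).2 h1) (not_le.2 h2)
  tfae_have 4 → 2 := fun ⟨C, hC⟩ => by
    by_contra hZ
    obtain ⟨N, h1, h2, h3⟩ := (hC.and_eventually (((top_D w0 (w5 hZ)).eventually_gt_atTop C).and evlog)).exists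
    exact absurd ((bD_ge h3).2 h1) (not_le.2 h2)
  tfae_finish

/-- the lower limits -/
theorem lower_fin (w0 : J_W0) (w4 : J_W4) (hZ : ZC) :
    (∀ c : ℝ, c < SQ → ∀ᶠ N : ℕ in atTop, c ≤ aQ N) ∧
    (∀ c : ℝ, c < Real.pi ^ 2 / 3 * SQ → ∀ᶠ N : ℕ in atTop, c ≤ bD N) := by
  have h1 : ∀ c : ℝ, c < SQ → ∀ᶠ N : ℕ in atTop, c ≤ aQ N := by
    intro c hc
    filter_upwards [w4 hZ c hc, evlog] with N h2 h3
    exact (aQ_le h3).2 h2
  exact ⟨h1, low_D w0 h1⟩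

/-- the logarithmic means -/
theorem means (w0 : J_W0) (w5 : J_W5) (w6 : J_W6) (w11 : J_W11) :
    Lim (fun X : ℕ => 2 / Real.log X ^ 2 * ∑ N ∈ Finset.Icc 1 X, FI N / (N : ℝ) ^ 2) SQ ∧
    Lim (fun X : ℕ => 2 / Real.log X ^ 2 * ∑ N ∈ Finset.Icc 1 X, D 2 N) (Real.pi ^ 2 / 3 * SQ) := by
  have e1 : ∀ X : ℕ, 2 / Real.log X ^ 2 * ∑ N ∈ Finset.Icc 1 X, FI N / (N : ℝ) ^ 2 =
      2 * ((∑ N ∈ Finset.Icc 1 X, FI N / (N : ℝ) ^ 2) / Real.log X ^ 2) := fun X => by ring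
  have e2 : ∀ᶠ X : ℕ in atTop, 2 * mean bD X = 2 / Real.log X ^ 2 * ∑ N ∈ Finset.Icc 1 X, D 2 N := by
    filter_upwards [eventually_ge_atTop 1] with X hX
    rw [← mean_D w0 X hX]
    ring
  refine ⟨⟨fun hZ => ?_, fun hZ => ?_⟩, ⟨fun hZ => ?_, fun hZ => ?_⟩⟩
  · have h2 : SQ = 2 * (zs / (24 * z3)) := by
      unfold SQ
      rw [← mul_div_assoc, show (24 : ℝ) * z3 = 2 * (12 * z3) by ring, mul_div_mul_left _ _ two_ne_zero]
    rw [h2]
    exact ((w6 hZ).const_mul 2).congr fun X => (e1 X).symm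
  · have h1 := (mean_inf w0 w11 (w5 hZ)).1
    have h2 : Tendsto (fun X : ℕ => 2 * mean aQ X) atTop atTop := h1.const_mul_atTop two_pos
    refine tendsto_atTop_mono' _ ?_ h2
    filter_upwards [eventually_ge_atTop 1] with X hX
    rw [e1, mean_Q X hX]
    have : 0 ≤ FI 1 / Real.log X ^ 2 := div_nonneg (FI_nonneg 1) (sq_nonneg _)
    linarith
  · have h1 := (mean_fin w0 w11 (by
      have h := w6 hZ
      have h2 : SQ / 2 = zs / (24 * z3) := by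
        unfold SQ
        rw [div_div]
        congr 1
        ring
      rw [h2]
      exact h)).2
    have h2 := h1.const_mul 2
    have h3 : 2 * (Real.pi ^ 2 / 3 * SQ / 2) = Real.pi ^ 2 / 3 * SQ := by ring
    rw [h3] at h2
    exact h2.congr' e2
  · have h1 := (mean_inf w0 w11 (w5 hZ)).2
    have h2 : Tendsto (fun X : ℕ => 2 * mean bD X) atTop atTop := h1.const_mul_atTop two_pos
    exact h2.congr' e2

/-- convergence outside sets of logarithmic density zero -/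
theorem nulls (w0 : J_W0) (w4 : J_W4) (w6 : J_W6) (w10 : J_W10) (w11 : J_W11) (hZ : ZC) {ε : ℝ} (hε : 0 < ε) :
    Null (fun N => ε < |aQ N - SQ|) ∧ Null (fun N => ε < |bD N - Real.pi ^ 2 / 3 * SQ|) := by
  obtain ⟨h1, h2⟩ := lower_fin w0 w4 hZ
  obtain ⟨h3, h4⟩ := mean_fin w0 w11 (by
      have h := w6 hZ
      have h2 : SQ / 2 = zs / (24 * z3) := by
        unfold SQ
        rw [div_div]
        congr 1
        ring
      rw [h2]
      exact h)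
  exact ⟨null_of w10 aQ_nonneg h1 h3 hε, null_of w10 bD_nonneg h2 h4 hε⟩

open Pool.Agent.Q120.FX in
lemma Mc_one (x : ℝ) : Mc (1 : DirichletCharacter ℂ 1) x = ((Mr x : ℝ) : ℂ) := by
  unfold Mc Mr
  push_cast
  refine Finset.sum_congr rfl fun n _ => ?_
  have h1 : (1 : DirichletCharacter ℂ 1) (n : ZMod 1) = 1 := by
    have : (n : ZMod 1) = 1 := Subsingleton.elim _ _
    rw [this, map_one]
  rw [h1, mul_one]

/-- multiple zeros and zeros off the line -/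
theorem mult_low (x5 : Pool.Agent.Q120.FX.J_X5) (w8 : J_W8) (w9 : J_W9) {ρ : ℂ} (h0 : 1 / 2 ≤ ρ.re) (h1 : ρ.re < 1) {r : ℕ}
    (hm : ((r + 1 : ℕ) : ℕ∞) ≤ analyticOrderAt riemannZeta ρ) :
    ∃ c : ℝ, 0 < c ∧ ∀ᶠ N : ℕ in atTop, c * (N * Real.log N ^ (2 * r + 1)) ≤ FI N ∧
      c * ((N : ℝ) ^ (ρ.re + 1 / 2) * Real.log N ^ (2 * r)) ≤ FI N := by
  have hL : DirichletCharacter.LFunction (1 : DirichletCharacter ℂ 1) = riemannZeta := DirichletCharacter.LFunction_modOne_eq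
  obtain ⟨c1, hc1, h2⟩ := x5 1 (1 : DirichletCharacter ℂ 1) ρ r h0 h1 (by rw [hL]; exact hm)
  obtain ⟨C, hC, h8⟩ := w8
  obtain ⟨c, hc, h9⟩ := w9
  have h3 : ∀ᶠ x : ℝ in atTop, c1 / C * Real.log x ^ (2 * r + 1) ≤ H2 x ∧
      c1 / C * (x ^ (2 * ρ.re - 1) * Real.log x ^ (2 * r)) ≤ H2 x := by
    filter_upwards [h2, eventually_ge_atTop 1] with x hx hx1
    have h4 : Pool.Agent.Q120.FX.M2c (1 : DirichletCharacter ℂ 1) x = ∫ u in (1 : ℝ)..x, (Mr u / u) ^ 2 := by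
      unfold Pool.Agent.Q120.FX.M2c
      refine intervalIntegral.integral_congr fun u _ => ?_
      change (‖Pool.Agent.Q120.FX.Mc (1 : DirichletCharacter ℂ 1) u‖ / u) ^ 2 = (Mr u / u) ^ 2
      rw [Mc_one, Complex.norm_real, Real.norm_eq_abs, div_pow, sq_abs, div_pow]
    rw [h4] at hx
    have h5 := h8 x hx1
    constructor
    · rw [div_mul_eq_mul_div, div_le_iff₀ hC]
      linarith [hx.1]
    · rw [div_mul_eq_mul_div, div_le_iff₀ hC]
      linarith [hx.2]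
  have h6 : ∀ᶠ N : ℕ in atTop, c * (N * H2 (1 / 2 * Real.sqrt N)) ≤ FI N := by
    filter_upwards [h9] with N hN
    have h7 : 1 / 2 * Real.sqrt N = Real.sqrt N / 2 := by ring
    rw [h7]
    exact hN
  exact Pool.Agent.Q120.FX.low_gen hc (by norm_num) (by positivity) h6 h3

/-- comparison of the sum and the integral -/
theorem comp (w0 : J_W0) (hinf : Tendsto FI atTop atTop) : ∀ᶠ N : ℕ in atTop,
    FI N / (N : ℝ) ^ 2 ≤ D 2 N ∧ D 2 N ≤ 4 * (FI N / (N : ℝ) ^ 2) := by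
  have hpi := Real.pi_gt_three
  have hpi2 := Real.pi_lt_d2
  have h1 : ∀ᶠ N : ℕ in atTop, 2 < gg N := gg_lim.eventually_const_lt (by nlinarith)
  have h2 : ∀ᶠ N : ℕ in atTop, gg N < 4 := gg_lim.eventually_lt_const (by nlinarith)
  filter_upwards [h1, h2, hinf.eventually_ge_atTop 1, eventually_ge_atTop 1] with N h3 h4 h5 h6
  have h0 : 0 < Ph N := lt_of_lt_of_le one_pos (Ph_pos h6)
  have hN0 : (0 : ℝ) < N := by exact_mod_cast h6
  have h7 : D 2 N = gg N * ((FI N - 1 / 3) / (N : ℝ) ^ 2) := by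
    rw [D2_eq w0 h6]
    unfold gg
    field_simp
  rw [h7]
  constructor
  · rw [← mul_div_assoc, div_le_div_iff_of_pos_right (by positivity)]
    nlinarith
  · have h8 : 4 * (FI N / (N : ℝ) ^ 2) = 4 * FI N / (N : ℝ) ^ 2 := by ring
    rw [h8, ← mul_div_assoc, div_le_div_iff_of_pos_right (by positivity)]
    nlinarith

end Pool.Agent.Q120.FA
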