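import Pool.Agent.Q120.FA.Fin6
import Pool.Agent.Q120.FA.Law

set_option autoImplicit false

/-! # Project FA: Franel's integral and Franel's sum, multiplicities -/

namespace Pool.Agent.Q120.FA

open MeasureTheory Filter Topology Set
open Pool.Agent.Q120.NB (zeros Theta half_le Theta_le_one re_le free exists_zero Theta_le_iff rh_iff)

lemma rh_half : RiemannHypothesis ↔ ∀ s : ℂ, 1 / 2 < s.re → riemannZeta s ≠ 0 := by
  rw [rh_iff, Theta_le_iff le_rfl]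

/-- reflection -/
lemma refl_mem {ρ : ℂ} (hρ : ρ ∈ NTZ) : (1 - ρ) ∈ NTZ := by
  have h2 : riemannZeta (1 - ρ) = 0 := by
    rw [riemannZeta_one_sub, hρ.1, mul_zero]
    · intro n hn
      have := congrArg Complex.re hn
      simp at this
      have h3 := hρ.2.1
      have h4 : (0 : ℝ) ≤ n := Nat.cast_nonneg n
      linarith
    · intro hn
      have h3 := hρ.2.2
      rw [hn] at h3
      simp at h3
  exact ⟨h2, by simp; linarith [hρ.2.2], by simp; linarith [hρ.2.1]⟩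

lemma ana (ρ : ℂ) (h : ρ ≠ 1) : AnalyticAt ℂ riemannZeta ρ := by
  refine DifferentiableOn.analyticAt (s := {1}ᶜ) (fun s hs => ?_) (isOpen_compl_singleton.mem_nhds h)
  exact (differentiableAt_riemannZeta hs).differentiableWithinAt

lemma order_one {ρ : ℂ} (hρ : ρ ∈ NTZ) : ((0 + 1 : ℕ) : ℕ∞) ≤ analyticOrderAt riemannZeta ρ := by
  have h1 : ρ ≠ 1 := by
    rintro rfl
    have := hρ.2.2
    simp at this
  have h2 : analyticOrderAt riemannZeta ρ ≠ 0 := fun h => (ana ρ h1).analyticOrderAt_eq_zero.1 h hρ.1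
  rw [zero_add, Nat.cast_one]
  exact Order.one_le_iff_pos.2 (pos_iff_ne_zero.2 h2)

lemma FI_top (x5 : Pool.Agent.Q120.FX.J_X5) (w8 : J_W8) (w9 : J_W9) : Tendsto FI atTop atTop := by
  obtain ⟨ρ, hρ, h12⟩ := exists_half
  have hρ' : ρ ∈ NTZ := ⟨hρ.1, hρ.2.1, hρ.2.2⟩
  obtain ⟨c, hc, h⟩ := mult_low x5 w8 w9 h12 hρ.2.2 (order_one hρ')
  have h1 : Tendsto (fun N : ℕ => c * (N * Real.log N ^ (2 * 0 + 1))) atTop atTop := by
    refine Tendsto.const_mul_atTop hc ?_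
    refine Tendsto.atTop_mul_atTop₀ tendsto_natCast_atTop_atTop ?_
    have h2 : Tendsto (fun N : ℕ => Real.log N) atTop atTop := Real.tendsto_log_atTop.comp tendsto_natCast_atTop_atTop
    refine h2.congr fun N => ?_
    simp
  exact tendsto_atTop_mono' _ (h.mono fun N hN => hN.1) h1

/-- powers of the logarithm are small -/
lemma log_small (k : ℕ) {a : ℝ} (ha : 0 < a) {c : ℝ} (hc : 0 < c) :
    ∀ᶠ N : ℕ in atTop, 1 * (N * Real.log N ^ k) < c * (N : ℝ) ^ (1 + a) := by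
  have h1 := (isLittleO_log_rpow_rpow_atTop (k : ℝ) ha).comp_tendsto tendsto_natCast_atTop_atTop
  have h2 := h1.bound (half_pos hc)
  filter_upwards [h2, eventually_ge_atTop 2] with N h3 h4
  have hN : (0 : ℝ) < N := by
    have : 0 < N := by omega
    exact_mod_cast this
  have hl : 0 < Real.log N := Real.log_pos (by exact_mod_cast h4)
  simp only [Function.comp] at h3
  rw [Real.norm_of_nonneg (by positivity), Real.norm_of_nonneg (by positivity), Real.rpow_natCast] at h3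
  rw [Real.rpow_add hN, Real.rpow_one, one_mul]
  have h5 : 0 < (N : ℝ) ^ a := by positivity
  calc (N : ℝ) * Real.log N ^ k ≤ N * (c / 2 * (N : ℝ) ^ a) := mul_le_mul_of_nonneg_left h3 hN.le
    _ < c * (N * (N : ℝ) ^ a) := by nlinarith [mul_pos hN h5]

/-- a bound for arbitrarily large `N` implies RH and bounds the multiplicities -/
theorem crit (x5 : Pool.Agent.Q120.FX.J_X5) (w8 : J_W8) (w9 : J_W9) {m : ℕ}
    (h : ∀ ε : ℝ, 0 < ε → ∃ᶠ N : ℕ in atTop, FI N ≤ ε * (N * Real.log N ^ (2 * m + 1))) :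
    RiemannHypothesis ∧ ∀ ρ ∈ NTZ, ρ.re = 1 / 2 ∧ analyticOrderAt riemannZeta ρ ≤ m := by
  have h0 : ∀ ρ ∈ NTZ, ρ.re ≤ 1 / 2 := by
    intro ρ hρ
    by_contra hcon
    push Not at hcon
    obtain ⟨c, hc, h1⟩ := mult_low x5 w8 w9 hcon.le hρ.2.2 (order_one hρ)
    have h2 := log_small (2 * m + 1) (a := ρ.re - 1 / 2) (by linarith) hc
    obtain ⟨N, h3, h4, h5⟩ := ((h 1 one_pos).and_eventually (h1.and h2)).exists
    have h6 := h4.2
    rw [Nat.mul_zero, pow_zero, mul_one] at h6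
    have h7 : (1 : ℝ) + (ρ.re - 1 / 2) = ρ.re + 1 / 2 := by ring
    rw [h7] at h5
    linarith
  have h1 : ∀ ρ ∈ NTZ, ρ.re = 1 / 2 := by
    intro ρ hρ
    have h2 := h0 ρ hρ
    have h3 := h0 _ (refl_mem hρ)
    simp at h3
    linarith
  refine ⟨rh_half.2 fun s hs hz => ?_, fun ρ hρ => ⟨h1 ρ hρ, ?_⟩⟩
  · rcases lt_or_ge s.re 1 with h2 | h2
    · have := h1 s ⟨hz, by linarith, h2⟩
      linarith
    · exact riemannZeta_ne_zero_of_one_le_re h2 hz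
  · by_contra hcon
    push Not at hcon
    have h2 : ((m + 1 : ℕ) : ℕ∞) ≤ analyticOrderAt riemannZeta ρ := by
      push_cast
      exact Order.add_one_le_of_lt hcon
    obtain ⟨c, hc, h3⟩ := mult_low x5 w8 w9 (h1 ρ hρ).ge hρ.2.2 h2
    obtain ⟨N, h4, h5, h6⟩ := ((h (c / 2) (half_pos hc)).and_eventually (h3.and evlog)).exists
    have h7 : 0 < N * Real.log N ^ (2 * m + 1) := mul_pos h6.1 (pow_pos h6.2 _)
    have h8 := h5.1
    nlinarith

/-- the same for Franel's sum -/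
theorem critD (w0 : J_W0) (x5 : Pool.Agent.Q120.FX.J_X5) (w8 : J_W8) (w9 : J_W9) {m : ℕ}
    (h : ∀ ε : ℝ, 0 < ε → ∃ᶠ N : ℕ in atTop, D 2 N ≤ ε * (Real.log N ^ (2 * m + 1) / N)) :
    RiemannHypothesis ∧ ∀ ρ ∈ NTZ, ρ.re = 1 / 2 ∧ analyticOrderAt riemannZeta ρ ≤ m := by
  refine crit x5 w8 w9 fun ε hε => ?_
  have h1 := comp w0 (FI_top x5 w8 w9)
  refine ((h ε hε).and_eventually (h1.and evlog)).mono fun N ⟨h2, h3, h4⟩ => ?_
  have hN0 := h4.1
  have hN2 : (0 : ℝ) < (N : ℝ) ^ 2 := by positivity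
  have h5 := h3.1.trans h2
  rw [div_le_iff₀ hN2] at h5
  calc FI N ≤ ε * (Real.log N ^ (2 * m + 1) / N) * (N : ℝ) ^ 2 := h5
    _ = ε * (N * Real.log N ^ (2 * m + 1)) := by field_simp

/-- multiple zeros and Franel's sum -/
theorem mult_lowD (w0 : J_W0) (x5 : Pool.Agent.Q120.FX.J_X5) (w8 : J_W8) (w9 : J_W9) {ρ : ℂ} (h0 : 1 / 2 ≤ ρ.re)
    (h1 : ρ.re < 1) {r : ℕ} (hm : ((r + 1 : ℕ) : ℕ∞) ≤ analyticOrderAt riemannZeta ρ) :
    ∃ c : ℝ, 0 < c ∧ ∀ᶠ N : ℕ in atTop, c * (Real.log N ^ (2 * r + 1) / N) ≤ D 2 N ∧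
      c * ((N : ℝ) ^ (ρ.re - 3 / 2) * Real.log N ^ (2 * r)) ≤ D 2 N := by
  obtain ⟨c, hc, h2⟩ := mult_low x5 w8 w9 h0 h1 hm
  refine ⟨c, hc, ?_⟩
  filter_upwards [h2, comp w0 (FI_top x5 w8 w9), evlog] with N h3 h4 h5
  have hN0 := h5.1
  have hN2 : (0 : ℝ) < (N : ℝ) ^ 2 := by positivity
  constructor
  · refine le_trans ?_ h4.1
    rw [le_div_iff₀ hN2]
    calc c * (Real.log N ^ (2 * r + 1) / N) * (N : ℝ) ^ 2 = c * (N * Real.log N ^ (2 * r + 1)) := by field_simp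
      _ ≤ FI N := h3.1
  · refine le_trans ?_ h4.1
    rw [le_div_iff₀ hN2]
    have h6 : (N : ℝ) ^ (ρ.re - 3 / 2) * (N : ℝ) ^ 2 = (N : ℝ) ^ (ρ.re + 1 / 2) := by
      rw [← Real.rpow_natCast (N : ℝ) 2, ← Real.rpow_add hN0]
      congr 1
      push_cast
      ring
    calc c * ((N : ℝ) ^ (ρ.re - 3 / 2) * Real.log N ^ (2 * r)) * (N : ℝ) ^ 2
        = c * (((N : ℝ) ^ (ρ.re - 3 / 2) * (N : ℝ) ^ 2) * Real.log N ^ (2 * r)) := by ring
      _ = c * ((N : ℝ) ^ (ρ.re + 1 / 2) * Real.log N ^ (2 * r)) := by rw [h6]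
      _ ≤ FI N := h3.2

end Pool.Agent.Q120.FA
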