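import Mathlib

set_option autoImplicit false

/-!
# Project FA: the `L^p` theory of the Farey discrepancy (Franel-Landau) and the zeros of zeta

`E_N(t) = #{a/n ≤ t : 1 ≤ a ≤ n ≤ N, (a,n) = 1} - Φ(N) t` on `[0,1]`, `Φ(N) = ∑_{n≤N} φ(n)`. Franel 1924, Landau 1924: RH iff
`‖E_N‖_2 ≤ N^(1/2+ε)` iff `‖E_N‖_1 ≤ N^(1/2+ε)`. Let `F(x) = ∑_{n ≤ x} (φ(n)/n)(1 - n/x) - 3x/π²`, `Θ` = supremum of the real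
parts of the zeros of zeta.

THEOREM. Let `C_p = 2 (∑_q φ(q) q^(-p-1)) ∫_0^∞ |F|^p ∈ (0,∞]`. For `p > 1/(1-Θ)`: `N^(-(p-1)) ∫_0^1 |E_N|^p → C_p < ∞`. For
`1 ≤ p ≤ 2` and for `p` with `1 - 1/p ≤ Re ρ` for some zero `ρ` (so for `p < 1/(1-Θ)`): `C_p = ∞` and
`N^(-(p-1)) ∫_0^1 |E_N|^p → ∞`. Hence RH iff the limit `C_p` is finite for every `p > 2` (and `F ∈ L^p(0,∞)` for every `p > 2`);
there is a zero-free half plane iff it is finite for one `p < ∞`; `Θ = 1 - 1/p_c`, `p_c` the critical exponent.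

Proof. `E_N(t) = -∑_{d≤N} M(N/d) ψ(dt) - 1/2`, `ψ(x) = {x} - 1/2`. Large `d > N/K`: a fixed linear combination of the sums
`S(N/m;t) = ∑_{d ≤ N/m} ψ(dt)`, `m ≤ K`, which concentrate at the rationals with small denominators:
`S(uN; a/q + x/(qN)) ~ (N/q) ∫_0^u ψ(vx) dv`, and which are `≤ η N` elsewhere. Small `d`: dyadic blocks, `L²` (Franel) and
`L^∞`. Everything below is elementary. (Numerically checked: `p = 3`: `C_3 = 0.02806`, `N = 400` gives `0.02739`.)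
-/

namespace Pool.Agent.Q120.FA

open MeasureTheory Filter Topology Set
open scoped ENNReal

/-- `ψ(x) = {x} - 1/2` -/
noncomputable def ps (x : ℝ) : ℝ := Int.fract x - 1 / 2

open Classical in
/-- the number of Farey fractions `a/n`, `1 ≤ a ≤ n ≤ N`, `(a,n) = 1`, with `a/n ≤ t` -/
noncomputable def cnt (N : ℕ) (t : ℝ) : ℕ :=
  ((Finset.Icc 1 N ×ˢ Finset.Icc 1 N).filter fun q : ℕ × ℕ =>
    q.1 ≤ q.2 ∧ q.1.Coprime q.2 ∧ (q.1 : ℝ) / (q.2 : ℝ) ≤ t).card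

/-- `E_N(t)` -/
noncomputable def E (N : ℕ) (t : ℝ) : ℝ := (cnt N t : ℝ) - (∑ n ∈ Finset.Icc 1 N, (n.totient : ℝ)) * t

/-- `F(x) = ∑_{n ≤ x} (φ(n)/n)(1 - n/x) - 3x/π²` -/
noncomputable def F (x : ℝ) : ℝ :=
  ∑ n ∈ Finset.Icc 1 ⌊x⌋₊, (n.totient : ℝ) / (n : ℝ) * (1 - (n : ℝ) / x) - 3 / Real.pi ^ 2 * x

/-- `N^(-(p-1)) ∫_0^1 |E_N|^p` -/
noncomputable def L (p : ℝ) (N : ℕ) : ℝ≥0∞ :=
  (∫⁻ t in Icc (0 : ℝ) 1, ENNReal.ofReal (|E N t| ^ p)) / ENNReal.ofReal ((N : ℝ) ^ (p - 1))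

/-- `C_p = 2 (∑_q φ(q) q^(-p-1)) ∫_0^∞ |F|^p` -/
noncomputable def C (p : ℝ) : ℝ≥0∞ :=
  2 * (∑' q : ℕ, ENNReal.ofReal ((q.totient : ℝ) / (q : ℝ) ^ (p + 1))) * ∫⁻ x in Ioi (0 : ℝ), ENNReal.ofReal (|F x| ^ p)

/-- `M(k) = ∑_{m ≤ k} μ(m)` -/
noncomputable def Mt (k : ℕ) : ℝ := ∑ m ∈ Finset.Icc 1 k, ((ArithmeticFunction.moebius m : ℤ) : ℝ)

/-- `S(D;t) = ∑_{d ≤ D} ψ(dt)` -/
noncomputable def S (D : ℕ) (t : ℝ) : ℝ := ∑ d ∈ Finset.Icc 1 D, ps ((d : ℝ) * t)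

/-- `∫_0^u ψ(vx) dv` -/
noncomputable def pr (u x : ℝ) : ℝ := ∫ v in (0 : ℝ)..u, ps (v * x)

/-- a linear combination `∑_{m ≤ K} b_m S(⌊N/m⌋;t)` -/
noncomputable def G (K : ℕ) (b : ℕ → ℝ) (N : ℕ) (t : ℝ) : ℝ := ∑ m ∈ Finset.Icc 1 K, b m * S (N / m) t

/-- its profile `∑_{m ≤ K} b_m ∫_0^{1/m} ψ(vx) dv` -/
noncomputable def g (K : ℕ) (b : ℕ → ℝ) (x : ℝ) : ℝ := ∑ m ∈ Finset.Icc 1 K, b m * pr (1 / (m : ℝ)) x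

/-- the coefficients of the part `d > N/K` of `E_N`: `-μ(m)` for `m < K`, `M(K-1)` for `m = K` -/
noncomputable def bK (K m : ℕ) : ℝ := if m < K then -((ArithmeticFunction.moebius m : ℤ) : ℝ) else Mt (K - 1)

/-- JOB ID (0.7 h). `E_N(t) = -∑_{d ≤ N} M(⌊N/d⌋) ψ(dt) - 1/2` on `[0,1]`, split at `N/K`.
Proof. `#{a/n ≤ t, (a,n) = 1} = ∑_{d m = n} μ(m) ⌊dt⌋` (`t ≤ 1`), so `E_N(t) = -∑_{d≤N} M(⌊N/d⌋) {dt}` (`⌊dt⌋ = dt - {dt}`), and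
`∑_{d≤N} M(⌊N/d⌋) = 1`. For `d > ⌊N/K⌋`: `⌊N/d⌋ ≤ K-1`, `M(⌊N/d⌋) = ∑_{m<K, m ≤ N/d} μ(m)`, so this part is
`-∑_{m<K} μ(m) (S(⌊N/m⌋;t) - S(⌊N/K⌋;t))`. The library `Pool/Agent/H295R2/T1.lean`, `F.lean` (`cnt_eq_fl`, `t1_sum_one`,
`sum_farey_mertens`, `Mx_div`) has this with other notations. -/
def J_ID : Prop := ∀ N K : ℕ, 1 ≤ N → 1 ≤ K → ∀ t : ℝ, 0 ≤ t → t ≤ 1 →
  E N t = G K (bK K) N t - (∑ d ∈ Finset.Icc 1 (N / K), Mt (N / d) * ps ((d : ℝ) * t)) - 1 / 2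

/-- JOB L2 (0.7 h). The sharp mean square bound.
Proof. `∫_0^1 ψ(at) ψ(bt) dt = (a,b)²/(12ab)` (library: `H332.FL.JJ_eq`, `quad_expand` in `Pool/Agent/H332R2/FL/SawQ.lean`,
`sw` there is `ψ` up to the values at integers or equal: check), so the integral is at most
`B² ∑_{a,b≤N} (a,b)²/(ab) ≤ B² ∑_{g≤N} (∑_{k ≤ N/g} 1/k)² ≤ B² ∑_{g ≤ N} (1+log(N/g))² ≤ C B² N` (drop coprimality; for the last
step `(1+log y)² ≤ 16 y^(1/2)` or so and `∑_{g≤N} (N/g)^(1/2) ≤ 2N`). -/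
def J_L2 : Prop := ∃ A : ℝ, 0 < A ∧ ∀ (N : ℕ) (c : ℕ → ℝ) (B : ℝ), 0 ≤ B → (∀ d ∈ Finset.Icc 1 N, |c d| ≤ B) →
  ∫ t in (0 : ℝ)..1, (∑ d ∈ Finset.Icc 1 N, c d * ps ((d : ℝ) * t)) ^ 2 ≤ A * B ^ 2 * N

/-- JOB TL (1 h, uses `J_L2`). The small `d`.
Proof. Dyadic blocks `D ≤ d < 2D`, `D = 2^i ≤ N/K`: `f_D = ∑ M(⌊N/d⌋) ψ(dt)` over the block, coefficients at most
`B = c0 (N/D)^θ`, so `|f_D| ≤ D B`, `∫ f_D² ≤ 2 A B² D` (`J_L2` with `N := 2D` and zero coefficients off the block), so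
`∫ |f_D|^p ≤ (DB)^(p-2) 2 A B² D = 2A B^p D^(p-1)`, that is `‖f_D‖_p ≤ C (N/D)^θ D^(1-1/p) = C N^θ D^(1-1/p-θ)`. Minkowski
(`eLpNorm_sum_le` or similar) and a geometric series: `‖·‖_p ≤ C' N^θ (N/K)^(1-1/p-θ)`; `η = p (1-1/p-θ)`. -/
def J_TL : Prop := ∀ p θ c0 : ℝ, 2 < p → 0 ≤ θ → θ < 1 - 1 / p → 0 < c0 → ∃ A η : ℝ, 0 < A ∧ 0 < η ∧
  ∀ M : ℕ → ℝ, (∀ k : ℕ, 1 ≤ k → |M k| ≤ c0 * (k : ℝ) ^ θ) → ∀ N K : ℕ, 1 ≤ N → 1 ≤ K →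
  ∫ t in (0 : ℝ)..1, |∑ d ∈ Finset.Icc 1 (N / K), M (N / d) * ps ((d : ℝ) * t)| ^ p ≤
    A * (K : ℝ) ^ (-η) * (N : ℝ) ^ (p - 1)

/-- JOB MI (0.8 h). Minor arcs.
Proof. `|β| ≤ 1/q²`, `β = t - a/q`. In a block of `q` consecutive `d = d0 + r`, `0 ≤ r < q`: `dt = d0 t + ra/q + rβ`, `|rβ| ≤ 1/q`,
and `ra mod q` runs through all residues: compare with `∑_j ψ(d0 t + j/q) = ψ(q d0 t)` (or the identity for `{·}`); the shift by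
`rβ` changes `ψ` by at most `1/q`, except for the at most 3 values `j` with `d0 t + j/q` at distance `≤ 1/q` from an integer,
where it changes by at most 2. So a block contributes at most `8`; at most `D/q` blocks and an incomplete one (`≤ q/2`). -/
def J_MI : Prop := ∃ A : ℝ, 0 < A ∧ ∀ (N D q : ℕ) (a : ℤ) (X t : ℝ), D ≤ N → 1 ≤ q → IsCoprime a (q : ℤ) → 1 ≤ X →
  (q : ℝ) * X ≤ N → |t - (a : ℝ) / q| ≤ X / (q * N) → |S D t| ≤ A * ((N : ℝ) / q + N / X)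

/-- JOB MA (1.2 h). Major arcs, pointwise.
Proof. Write `d = qj + r`, `1 ≤ r ≤ q`: `dt = integer + ra/q + jx/N + rx/(qN)`. For fixed `r` the Riemann sum
`(1/N) ∑_{j ≤ uN/q} ψ(ra/q + jx/N + rx/(qN))` tends to `∫_0^{u/q} ψ(ra/q + wx) dw`, `u = 1/m` (`ψ` is bounded and has finitely many
jumps in the range; for `x = 0` the summands are constant), and `∑_r ψ(ra/q + y) = ψ(qy)` for all real `y`, so the sum of the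
limits is `∫_0^{u/q} ψ(qwx) dw = (1/q) ∫_0^u ψ(vx) dv`. (For `x = 0`: `∑_r ψ(ra/q) = -1/2`, the same formula.)
Another way: `(1/N) ∑_{d ≤ uN} ψ(da/q + dx/(qN))`. -/
def J_MA : Prop := ∀ (q : ℕ) (a : ℤ) (m : ℕ) (x : ℝ), 1 ≤ q → IsCoprime a (q : ℤ) → 1 ≤ m →
  Tendsto (fun N : ℕ => S (N / m) ((a : ℝ) / q + x / (q * N)) / N) atTop (𝓝 (1 / q * pr (1 / (m : ℝ)) x))

/-- JOB AR (0.5 h, uses `J_MA`). One arc. Substitution `t = a/q + x/(qN)` and dominated convergence on `[x1,x2]`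
(`|G K b N t| ≤ N ∑ |b_m|`). -/
def J_AR : Prop := ∀ (p : ℝ) (K : ℕ) (b : ℕ → ℝ) (q : ℕ) (a : ℤ) (x1 x2 : ℝ), 1 ≤ p → 1 ≤ q → IsCoprime a (q : ℤ) →
  x1 ≤ x2 → Tendsto (fun N : ℕ => (∫ t in ((a : ℝ) / q + x1 / (q * N))..((a : ℝ) / q + x2 / (q * N)),
    |G K b N t| ^ p) / (N : ℝ) ^ (p - 1)) atTop (𝓝 (1 / (q : ℝ) ^ (p + 1) * ∫ x in x1..x2, |g K b x| ^ p))

/-- JOB AS (1.5 h, uses `J_L2`, `J_MI`, `J_AR`). The `L^p` norm of a combination, `p > 2`.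
Proof. Fix `Q, X ≥ 1`. For `N > 2 Q² X` or so the arcs `|t - a/q| ≤ X/(qN)`, `q ≤ Q`, `0 ≤ a ≤ q`, `(a,q) = 1`, are disjoint; their
parts in `[0,1]` (for `q = 1` only the right half of the arc at `0` and the left half of the arc at `1`) contribute, by `J_AR`,
`N^(p-1) (∑_{q≤Q} φ(q) q^(-p-1) ∫_{-X}^X |g|^p + o(1))`. Any other `t ∈ [0,1]` has, by Dirichlet's theorem
(`Real.exists_int_int_abs_mul_sub_le` or similar with the bound `⌊N/X⌋`), `a/q` with `q ≤ N/X`, `|t - a/q| ≤ X/(qN)`, so `q > Q`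
and `|G K b N t| ≤ A_b N (1/Q + 1/X)` by `J_MI`; with `∫_0^1 G² ≤ A' N` (`J_L2`, `c_d = ∑_{m ≤ K, d ≤ N/m} b_m`) the remaining
part is at most `(A_b N (1/Q+1/X))^(p-2) A' N`. So for all `Q, X`:
`limsup |N^(-(p-1)) ∫_0^1 |G|^p - ∑_{q≤Q} φ(q) q^(-p-1) ∫_{-X}^X |g|^p| ≤ A'' (1/Q+1/X)^(p-2)`. Let `Q, X → ∞`;
`|g(x)| ≤ A/(1+|x|)` (as `|∫_0^u ψ(vx) dv| = |∫_0^{ux} ψ|/|x| ≤ 1/|x|`) gives the integrability. -/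
def J_AS : Prop := ∀ (p : ℝ) (K : ℕ) (b : ℕ → ℝ), 2 < p →
  Integrable (fun x : ℝ => |g K b x| ^ p) ∧ Summable (fun q : ℕ => (q.totient : ℝ) / (q : ℝ) ^ (p + 1)) ∧
  Tendsto (fun N : ℕ => (∫ t in (0 : ℝ)..1, |G K b N t| ^ p) / (N : ℝ) ^ (p - 1)) atTop
    (𝓝 ((∑' q : ℕ, (q.totient : ℝ) / (q : ℝ) ^ (p + 1)) * ∫ x : ℝ, |g K b x| ^ p))

/-- JOB PF (1 h). The profile of `E_N`.
Proof. `g K (bK K) x = -∫_{1/K}^1 M(⌊1/v⌋) ψ(vx) dv` (`1 ≤ K`). For `x > 0`, `y = 1/v`: as `|M(k)| ≤ c0 k^θ`, `θ < 1`, the function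
`M(⌊1/v⌋)` is integrable on `(0,1]` and `g K (bK K) x → -∫_0^1 M(⌊1/v⌋) ψ(vx) dv`. With `ψ(vx) = vx - ⌊vx⌋ - 1/2`:
`∫_0^1 M(⌊1/v⌋) v dv = ∑ μ(m)/(2m²) = 3/π²`, `∫_0^1 M(⌊1/v⌋) dv = ∑ μ(m)/m = 0` (`∑_m μ(m) m^(-s) = s ∫_1^∞ M(⌊y⌋) y^(-s-1) dy = 1/ζ(s)`
for `s > 1`, let `s → 1`, dominated convergence), and
`∫_0^1 M(⌊1/v⌋) ⌊vx⌋ dv = ∑_{a≤x} ∑_{m ≤ x/a} μ(m)(1/m - a/x) = ∑_{n≤x} (φ(n)/n)(1 - n/x)`. Oddness: `ψ(-y) = -ψ(y)` for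
`y` not an integer. -/
def J_PF : Prop := (∀ c0 θ : ℝ, θ < 1 → (∀ k : ℕ, 1 ≤ k → |Mt k| ≤ c0 * (k : ℝ) ^ θ) → ∀ x : ℝ, 0 < x →
    Tendsto (fun K : ℕ => g K (bK K) x) atTop (𝓝 (F x))) ∧
  (∀ (K : ℕ) (b : ℕ → ℝ) (x : ℝ), x ≠ 0 → g K b (-x) = -g K b x)

/-- JOB UP (1.5 h, uses `J_ID`, `J_TL`, `J_AS`, `J_PF`). The limit theorem.
Proof. Norms in `L^p[0,1]`. `J_ID`: `|‖E_N‖ - ‖G_{N,K}‖| ≤ ‖R_{N,K}‖ + 1/2`, `G_{N,K} = G K (bK K) N`, `‖R_{N,K}‖ ≤ A K^(-η) N^(1-1/p)`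
(`J_TL` with `M = Mt`). For `K < K'`: `G_{N,K'} - G_{N,K} = R_{N,K} - R_{N,K'}` is again a combination (`b = bK K' - bK K`, where `bK K m`
is replaced by `0` for `m > K`), so by `J_AS` and oddness `κ ‖g_K' - g_K‖_{L^p(0,∞)} ≤ 2 A K^(-η)`, `κ > 0`; `g_K → F` pointwise
(`J_PF`), Fatou: `κ ‖g_K - F‖_{L^p(0,∞)} ≤ 2 A K^(-η)`, so `F ∈ L^p(0,∞)` and `‖g_K‖ → ‖F‖`. By `J_AS`
`N^(-(1-1/p)) ‖G_{N,K}‖ → κ ‖g_K‖_{L^p(0,∞)}`, `κ^p = 2 ∑ φ(q) q^(-p-1)`; let `N → ∞`, then `K → ∞`. `C p ≠ 0` as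
`F(x) = -3x/π²` on `(0,1)`. -/
def J_UP : Prop := ∀ p c0 θ : ℝ, 2 < p → 0 ≤ θ → θ < 1 - 1 / p → (∀ k : ℕ, 1 ≤ k → |Mt k| ≤ c0 * (k : ℝ) ^ θ) →
  C p ≠ 0 ∧ C p ≠ ⊤ ∧ Tendsto (L p) atTop (𝓝 (C p))

/-- JOB ZR (0.8 h). The neighbourhood of `0`.
Proof. `E_N(x/N)/N → F(x)` for `x > 0`: for `N > x` the number of `(a,n)`, `n ≤ N`, `(a,n) = 1`, `a/n ≤ x/N` is
`∑_{a ≤ x} #{n : aN/x ≤ n ≤ N, (a,n) = 1} = ∑_{a≤x} (φ(a)/a)(1 - a/x) N + O_x(1)`, and `Φ(N) = 3N²/π² + O(N log N)` (or any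
`o(N²)`; in Mathlib or in the library, for example from the same counting). Substitution `t = x/N` and dominated convergence:
`|E_N(x/N)| ≤ (x² + x) N + N` for `x ≤ X`. -/
def J_ZR : Prop := ∀ p X : ℝ, 1 ≤ p → 0 < X →
  Tendsto (fun N : ℕ => (∫ t in (0 : ℝ)..(X / N), |E N t| ^ p) / (N : ℝ) ^ (p - 1)) atTop
    (𝓝 (∫ x in (0 : ℝ)..X, |F x| ^ p))

/-- JOB ME (1.3 h). `F` in `L^p` gives a zero-free half plane, closed.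
Proof. `F` is bounded by `2 + x` ... on bounded sets and `|F(x)| ≤ 2x` for `x ≥ 1`. For `Re s > 2`:
`H(s) = ∫_1^∞ F(x) x^(-s) dx = ζ(s-1)/(ζ(s) s (s-1)) - (3/π²)/(s-2)` (`∑_n φ(n) n^(-s) = ζ(s-1)/ζ(s)`,
`∫_n^∞ (1-n/x) x^(-s) dx = n^(1-s)/(s(s-1))`). Let `p > 1`, `F ∈ L^p(1,∞)`. By Hoelder `H` is analytic on `Re s > 1 - 1/p` and
`|H(s)| ≤ ‖F‖_p (q Re s - 1)^(-1/q)`, `q = p/(p-1)`. So `s(s-1)(s-2) ζ(s) H(s) + (3/π²) s (s-1) ζ(s) = (s-2) ζ(s-1)` for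
`Re s > 1-1/p`, `s ≠ 1, 2` (identity theorem; multiply by `s-1` or use `(s-1)ζ(s)`, Mathlib's entire function, if convenient). Let `ρ` be
a zero, `0 < Re ρ < 1`, `Re ρ ≥ 1-1/p`, and `s = ρ + δ`, `δ → 0+`: the left side is `O(δ · δ^(-1/q))`, so `(ρ-2) ζ(ρ-1) = 0`;
but `ζ(w) ≠ 0` for `-1 < Re w < 0` (functional equation; zeta has no zero with real part `> 1`). For `p = 1`: `F ∈ L¹(1,∞)`; then
`H` is analytic on `Re s > 0`, bounded there, the same argument. -/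
def J_ME : Prop := ∀ p : ℝ, 1 ≤ p → ∫⁻ x in Ioi (1 : ℝ), ENNReal.ofReal (|F x| ^ p) ≠ ⊤ →
  ∀ s : ℂ, riemannZeta s = 0 → 0 < s.re → s.re < 1 → s.re < 1 - 1 / p

end Pool.Agent.Q120.FA
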