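import Pool.Agent.Q120.FA.Stm

set_option autoImplicit false

/-!
# Project FA, second part: the exponents for all `p ≥ 1`

`log ‖E_N‖_p / log N → max(Θ, 1 - 1/p)` for every `p ≥ 1` (all `N`).
-/

namespace Pool.Agent.Q120.FA

open MeasureTheory Filter Topology Set
open scoped ENNReal

/-- the supremum of the real parts of the zeros (this is `Pool.Agent.H295R2.zetaSup`, by `rfl`) -/
noncomputable def Th : ℝ := sSup (Complex.re '' {s : ℂ | riemannZeta s = 0 ∧ 0 < s.re ∧ s.re < 1})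

/-- JOB EL (1 h). The lower bound in `L¹`, for ALL large `N`.
Proof. `ψ(x) = -∑_j sin(2πjx)/(πj)`, so `∫_0^1 ψ(dt) sin(2πkt) dt = -d/(2πk)` if `d ∣ k` and `0` otherwise (direct computation,
or `∫_0^1 ψ(dt) sin(2πkt) dt` by periodicity), and by the identity `E_N(t) = -∑_{d≤N} M(⌊N/d⌋) ψ(dt) - 1/2` (theorem
`Pool.Agent.Q277.FA.t_ID` with `K = 1`: `J_ID`) `∫_0^1 E_N(t) sin(2πkt) dt = (1/(2πk)) ∑_{d ∣ k, d ≤ N} d M(⌊N/d⌋)`. Hence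
`|∑_{d ∣ k} d M(⌊N/d⌋)| ≤ 2πk ‖E_N‖_1` (all `k ≥ 1`), by Moebius inversion `k |M(⌊N/k⌋)| ≤ 2π ‖E_N‖_1 ∑_{j ∣ k} j ≤ 2π k² ‖E_N‖_1`
(for `k ≤ N`; the crude last bound suffices). The starting library has
`Pool.Agent.H295R2.mertens_local_lower` (`Pool/Agent/H295R2/T8.lean`): for `0 < δ ≤ 1`, `0 < ε`: for all large `n` some `h ≤ n^δ`
has `|Mx (n/h)| ≥ n^(zetaSup-ε)`; take `δ = ε/4` or so. (`zetaSup = Th` by `rfl`.) -/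
def J_EL : Prop := ∀ ε : ℝ, 0 < ε → ∀ᶠ N : ℕ in atTop, (N : ℝ) ^ (Th - ε) ≤ ∫ t in (0 : ℝ)..1, |E N t|

/-- JOB EU (1 h, uses `J_ID`, `J_L2`, both proved: `Pool.Agent.Q277.FA.t_ID`, `t_L2`). The upper bound for every `p ≥ 1`.
Proof. `|M(k)| ≤ c k^θ`, `θ = Th + ε` (`Pool.Agent.H295R2.mertens_bound` with `Pool.Agent.H295R2.zetaSup_free`). For `p ≥ 2`: as
`J_TL`, the dyadic block `D ≤ d < 2D ≤ 2N` has norm `≤ C (N/D)^θ D^(1-1/p) = C N^θ D^(1-1/p-θ) ≤ C (N^θ + N^(1-1/p))`, and there are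
at most `2 + 2 log N` blocks. For `1 ≤ p ≤ 2`: `‖E_N‖_p ≤ ‖E_N‖_2` (`[0,1]` has measure 1) and `1 - 1/p ≤ 1/2 ≤ Th`
(`Pool.Agent.H295R2.half_le_zetaSup`). -/
def J_EU : Prop := ∀ p ε : ℝ, 1 ≤ p → 0 < ε → ∃ A : ℝ, 0 < A ∧ ∀ N : ℕ, 1 ≤ N →
  (∫ t in (0 : ℝ)..1, |E N t| ^ p) ^ (1 / p) ≤ A * (N : ℝ) ^ (max Th (1 - 1 / p) + ε)

end Pool.Agent.Q120.FA
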