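import Pool.Agent.Q120.FA.Stm2

set_option autoImplicit false

/-!
# Project FA, third part: the classical sums of Franel and Landau

`r_1 < r_2 < ... < r_Φ(N) = 1` the Farey fractions of order `N`, `D_p(N) = ∑_ν |r_ν - ν/Φ(N)|^p` (Landau: `p = 1`, Franel:
`p = 2`). As `E_N(r_ν) = ν - Φ(N) r_ν`: `D_p(N) = Φ(N)^(-p) ∑_ν |E_N(r_ν)|^p`. THEOREM: for `p > 1/(1-Θ)`
`N^(p-1) D_p(N) → (π²/3)^p · 2 (∑ φ(q) q^(-p-1)) ∫_1^∞ |F(x)|^p Φ(x) x^(-2) dx < ∞`, `Φ(x) = ∑_{n≤x} φ(n)`; otherwise (as for the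
integrals) it tends to `∞`; and `log D_p(N)/log N → max(1-p, 2-2p+pΘ)` for all `p ≥ 1`.
Landed: `Q277.FA.t_ID, t_L2`, `Q65.FA.t_MI`, `Q151.FA.t_AR`, `Q129.FA.t_AS`, `Q224.FA.t_PF`, `Q192.FA.t_ME`.
-/

namespace Pool.Agent.Q120.FA

open MeasureTheory Filter Topology Set
open scoped ENNReal

open Classical in
/-- the Farey fractions of order `N` as pairs `(a,n)` -/
noncomputable def FN (N : ℕ) : Finset (ℕ × ℕ) :=
  (Finset.Icc 1 N ×ˢ Finset.Icc 1 N).filter fun q : ℕ × ℕ => q.1 ≤ q.2 ∧ q.1.Coprime q.2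

/-- the Farey fraction `a/n` -/
noncomputable def fp (q : ℕ × ℕ) : ℝ := (q.1 : ℝ) / (q.2 : ℝ)

/-- the Franel-Landau sum `D_p(N)`: `cnt N (fp q)` is the index `ν` of the fraction -/
noncomputable def D (p : ℝ) (N : ℕ) : ℝ := ∑ q ∈ FN N, |fp q - (cnt N (fp q) : ℝ) / ((FN N).card : ℝ)| ^ p

/-- `∑_ν |E_N(r_ν)|^p` -/
noncomputable def W (p : ℝ) (N : ℕ) : ℝ := ∑ q ∈ FN N, |E N (fp q)| ^ p

/-- `w(x) = x^(-2) ∑_{n ≤ x} φ(n)` -/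
noncomputable def w (x : ℝ) : ℝ := (∑ n ∈ Finset.Icc 1 ⌊x⌋₊, (n.totient : ℝ)) / x ^ 2

/-- the odd extension of `F` -/
noncomputable def Fo (x : ℝ) : ℝ := if 0 < x then F x else if x < 0 then -F (-x) else 0

/-- the profile of `E_N` at `a/q`, uniformly -/
def Prof (q a : ℕ) : Prop := ∀ X ε : ℝ, 0 < X → 0 < ε → ∀ᶠ N : ℕ in atTop, ∀ x : ℝ, |x| ≤ X →
  0 ≤ (a : ℝ) / q + x / (q * N) → (a : ℝ) / q + x / (q * N) ≤ 1 →
  |E N ((a : ℝ) / q + x / (q * N)) / N - Fo x / q| ≤ ε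

/-- JOB SL (0.7 h). From the integral to the sum over the Farey fractions.
Proof. `f(t) = ∑_{d≤N} c_d ψ(dt) + k`. For a Farey fraction `r = a/n` no fraction `m/d`, `d ≤ N`, lies in `(r, r + 1/N²)`, so
`f` is affine on `[r, r + 1/N²)` (`ψ` is continuous on the right), and these intervals are disjoint; for `r = 1` use
periodicity and `[0, 1/N²)` instead. For an affine function `f(r+s) = f(r) + ms` on `[0,ℓ)`: `|f| ≥ |f(r)|/2` on a set of measure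
`≥ ℓ/4` (if `|m| ℓ < 2|f(r)|`: for `s < ℓ/4`; otherwise `{|f| < |f(r)|/2}` is an interval of length `|f(r)|/|m| ≤ ℓ/2`). -/
def J_SL : Prop := ∀ p : ℝ, 1 ≤ p → ∀ N : ℕ, 1 ≤ N → ∀ (c : ℕ → ℝ) (k : ℝ),
  ∑ q ∈ FN N, |(∑ d ∈ Finset.Icc 1 N, c d * ps ((d : ℝ) * fp q)) + k| ^ p ≤
    4 * 2 ^ p * (N : ℝ) ^ 2 * ∫ t in (0 : ℝ)..1, |(∑ d ∈ Finset.Icc 1 N, c d * ps ((d : ℝ) * t)) + k| ^ p

/-- JOB SZ (0.7 h). The profile at `0`, without hypothesis (here `x ≥ 0`).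
Proof. Pointwise: `E_N(x/N)/N → F(x)` for `x > 0` (see `J_ZR`, helper124), `E_N(0) = 0`. Uniformly: `cnt N (x/N)/N` is nondecreasing in
`x` and tends to the continuous function `F(x) + 3x/π²` (`= ∑_{n≤x} (φ(n)/n)(1-n/x)`, continuous as the new term at `x = n` vanishes),
`Φ(N) x/N² → 3x/π²` uniformly on `[0,X]`; a pointwise convergent sequence of monotone functions with continuous limit converges
uniformly on `[0,X]` (Pólya). -/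
def J_SZ : Prop := Prof 1 0

/-- JOB SU (1.2 h, uses `J_MA`, `J_PF`, `J_ID`). The profile at every rational number, if `M(k) ≪ k^θ`, `θ < 1`.
Proof. `J_ID`: `E_N = G K (bK K) N - R - 1/2`, `|R| ≤ ∑_{d≤N/K} c0 (N/d)^θ ≤ C N K^(-(1-θ))` (if `θ < 0` replace it by `0`). By `J_MA`
`G K (bK K) N (a/q + x/(qN))/N → g K (bK K) x / q`, and `g K (bK K) x → Fo x` as `K → ∞` (`J_PF`; for `x = 0`:
`g K (bK K) 0 = (∑_{m<K} μ(m)/m - M(K-1)/K)/2 → 0`, `∑ μ(m)/m = 0`: see the proof of `J_PF`, helper224, or the library). So pointwise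
convergence; uniformly as in `J_SZ`: `cnt N (a/q + x/(qN))/N` is nondecreasing in `x`, the limit (after subtraction of the linear part
`Φ(N) (a/q + x/(qN))/N`) is continuous. -/
def J_SU : Prop := ∀ c0 θ : ℝ, θ < 1 → (∀ k : ℕ, 1 ≤ k → |Mt k| ≤ c0 * (k : ℝ) ^ θ) →
  ∀ q a : ℕ, 1 ≤ q → a ≤ q → a.Coprime q → Prof q a

/-- JOB SA (1.2 h). The sum over one arc, right side and left side.
Proof. Let `ν(x) = F(x) + 3x/π² = ∑_{n≤x} (φ(n)/n)(1-n/x)`, `ν' = w` (off the integers; `ν` is continuous, `ν(x) = ∫_0^x w`). By `Prof`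
(and `Φ(N)/N² → 3/π²`, which is in `Pool/Agent/Q124/FA` or the library) the number of Farey fractions in `(a/q, a/q + x/(qN)]`,
divided by `N`, tends to `ν(x)/q`, for `0 ≤ x ≤ X`; on the left side the number in `(a/q - x/(qN), a/q]` (`Fo` is odd) tends to the same
limit (single fractions do not matter). And `|E_N(r)|^p/N^p` is uniformly close to `|F(x)|^p/q^p`, `r = a/q ± x/(qN)`. Divide `[0,X]` into
small intervals on which `|F|^p` is nearly constant (`F` is continuous): Riemann-Stieltjes sums for `∫_0^X |F|^p dν = ∫_0^X |F|^p w`. -/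
def J_SA : Prop := ∀ p : ℝ, 1 ≤ p → ∀ q a : ℕ, 1 ≤ q → a ≤ q → a.Coprime q → Prof q a → ∀ X : ℝ, 0 < X →
  (a < q → Tendsto (fun N : ℕ => (∑ r ∈ FN N, if (a : ℝ) / q < fp r ∧ fp r ≤ (a : ℝ) / q + X / (q * N) then
    |E N (fp r)| ^ p else 0) / (N : ℝ) ^ (p + 1)) atTop (𝓝 (1 / (q : ℝ) ^ (p + 1) * ∫ x in (0 : ℝ)..X, |F x| ^ p * w x))) ∧
  (1 ≤ a → Tendsto (fun N : ℕ => (∑ r ∈ FN N, if (a : ℝ) / q - X / (q * N) ≤ fp r ∧ fp r < (a : ℝ) / q then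
    |E N (fp r)| ^ p else 0) / (N : ℝ) ^ (p + 1)) atTop (𝓝 (1 / (q : ℝ) ^ (p + 1) * ∫ x in (0 : ℝ)..X, |F x| ^ p * w x)))

open Classical in
/-- JOB SM (1 h, uses `J_ID`, `J_L2`, `J_TL`, `J_MI`, `J_SL`). The minor arcs for the sum.
Proof. `E_N = G - R - 1/2` (`J_ID`), `G = G K (bK K) N`, so `|E|^p ≤ 3^(p-1) (|G|^p + |R|^p + 1)`. `∑_r |R(r)|^p ≤ 4·2^p N² ∫ |R|^p ≤
C K^(-η) N^(p+1)` (`J_SL`, `J_TL`), `∑_r 1 ≤ N²`. For `r` outside the arcs `|r - a/q| ≤ X/(qN)`, `q ≤ Q`: `|G(r)| ≤ C_K N (1/Q + 1/X)`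
(Dirichlet and `J_MI`, see `Pool/Agent/Q129/FA/AS.lean`), and `∑_r G(r)² ≤ 16 N² ∫ G² ≤ C_K N³` (`J_SL` with `p = 2`, `J_L2`), so
`∑ |G|^p ≤ C_K (1/Q+1/X)^(p-2) N^(p+1)`. First choose `K`, then `Q`, `X`. -/
def J_SM : Prop := ∀ p c0 θ : ℝ, 2 < p → 0 ≤ θ → θ < 1 - 1 / p → (∀ k : ℕ, 1 ≤ k → |Mt k| ≤ c0 * (k : ℝ) ^ θ) →
  ∀ ε : ℝ, 0 < ε → ∃ Q : ℕ, ∃ X : ℝ, 1 ≤ Q ∧ 1 ≤ X ∧ ∀ (Q' : ℕ) (X' : ℝ), Q ≤ Q' → X ≤ X' → ∀ᶠ N : ℕ in atTop,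
  (∑ r ∈ (FN N).filter (fun r => ∀ q ∈ Finset.Icc 1 Q', ∀ a ∈ Finset.range (q + 1), a.Coprime q →
    X' / (q * N) < |fp r - (a : ℝ) / q|), |E N (fp r)| ^ p) / (N : ℝ) ^ (p + 1) ≤ ε

/-- JOB SS (1.2 h, uses `J_SU`, `J_SA`, `J_SM`, `J_SL`). The limit theorem for the sums.
Proof. For fixed `Q`, `X` and large `N` the arcs `|t - a/q| ≤ X/(qN)`, `q ≤ Q`, `0 ≤ a ≤ q`, `(a,q) = 1` are disjoint. By `J_SU`, `J_SA` their
Farey fractions (right and left parts; the centres contribute `|E_N(a/q)|^p = o(N^p)`; for `q = 1` only the right part at `0` and the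
left part at `1`) contribute `N^(p+1) (2 ∑_{q≤Q} φ(q) q^(-p-1) ∫_0^X |F|^p w + o(1))`, all others at most `ε N^(p+1)` (`J_SM`). `W` is bounded
by `C N^(p+1)` for large `N` (the same with fixed `Q`, `X`), so the partial sums and integrals are bounded, and all converge. -/
def J_SS : Prop := ∀ p c0 θ : ℝ, 2 < p → 0 ≤ θ → θ < 1 - 1 / p → (∀ k : ℕ, 1 ≤ k → |Mt k| ≤ c0 * (k : ℝ) ^ θ) →
  IntegrableOn (fun x : ℝ => |F x| ^ p * w x) (Ioi 0) ∧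
  Tendsto (fun N : ℕ => W p N / (N : ℝ) ^ (p + 1)) atTop
    (𝓝 (2 * (∑' q : ℕ, (q.totient : ℝ) / (q : ℝ) ^ (p + 1)) * ∫ x in Ioi (0 : ℝ), |F x| ^ p * w x))

/-- JOB SE (1 h). The lower bound for Landau's sum, all large `N`.
Proof (Landau). `∑_ν e(k r_ν) = ∑_{d ∣ k, d ≤ N} d M(⌊N/d⌋)`, and `∑_ν e(kν/A) = 0` for `A = Φ(N) ∤ k`, so for `1 ≤ k < A`
`|∑_{d ∣ k} d M(⌊N/d⌋)| ≤ 2πk ∑_ν |r_ν - ν/A|`; by Moebius inversion `k |M(⌊N/k⌋)| ≤ 2π k² D_1(N)` (the divisors of `k` are `< A` for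
`k ≤ N^(1/2)`), and `Pool.Agent.H295R2.mertens_local_lower` (`Pool/Agent/H295R2/T8.lean`) as in `J_EL`. Or convert the starting theorem
`Pool.Agent.H295R2.limit_theorem` (`T6b.lean`, `localSum 0 1 n`) or `interval_lower`, the index of a fraction in the ordered Farey
sequence is `cnt N (fp q)`. -/
def J_SE : Prop := ∀ ε : ℝ, 0 < ε → ∀ᶠ N : ℕ in atTop, (N : ℝ) ^ (Th - ε) ≤ D 1 N

end Pool.Agent.Q120.FA
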