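import Pool.Agent.Q120.FA.Stm3

set_option autoImplicit false

/-!
# Project FA, fourth part: Franel's integral (`p = 2`) exactly, and the weak Mertens hypothesis

Let `S = (12 ζ(3))^(-1) ∑_ρ |ζ(1+ρ)|²/|ρ ζ'(ρ)|²`, read as `∞` if RH fails, a zero is multiple or the sum diverges. THEOREM
(unconditional): `liminf_N (N log N)^(-1) ∫_0^1 E_N² ≥ S`, and the logarithmic mean
`2 (log X)^(-2) ∑_{N ≤ X} N^(-2) ∫_0^1 E_N²` tends to `S`. So the weak Mertens hypothesis (`∫_1^x (M(u)/u)² du ≪ log x`, equivalent to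
`S < ∞` by the starting library) holds iff `∫_0^1 E_N² ≤ C N log N` for infinitely many `N`, iff Franel's sum
`∑_ν (r_ν - ν/Φ(N))²` is `≤ C (log N)/N` for infinitely many `N`; this implies RH and the simplicity of the zeros.

Library: `Pool/Agent/Results/MP_323ce2_nt/ZeroSumCriterion.lean` (`W120.WM.final2`, `final3`: the limit of `(log x)^(-1) ∫_1^x (M(u)/u)² du`),
`AlmostPeriodicity.lean` (`TH223.AP.main`: mean square distance of `M(e^v)e^(-v/2)` to finite sums over zeros),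
`SampledValues.lean` (`Q241SPL.Between.maximal`, module `Pool.Agent.Q241.SPL.MW`: short intervals). The definitions `NTZ`, `ZC` below
are those of these files (`NT`, `ZerosCondition`).
-/

namespace Pool.Agent.Q120.FA

open MeasureTheory Filter Topology Set

/-- the Mertens function of a real variable -/
noncomputable def Mr (x : ℝ) : ℝ := ∑ n ∈ Finset.Icc 1 ⌊x⌋₊, ((ArithmeticFunction.moebius n : ℤ) : ℝ)

/-- `h(y) = ∑_{m ≤ y} M(y/m)/m` -/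
noncomputable def hh (y : ℝ) : ℝ := ∑ m ∈ Finset.Icc 1 ⌊y⌋₊, Mr (y / m) / m

/-- `J_2(e)/e² = ∑_{k ∣ e} μ(k)/k²` -/
noncomputable def j2 (e : ℕ) : ℝ := ∑ k ∈ e.divisors, ((ArithmeticFunction.moebius k : ℤ) : ℝ) / (k : ℝ) ^ 2

/-- the nontrivial zeros -/
def NTZ : Set ℂ := {s : ℂ | riemannZeta s = 0 ∧ 0 < s.re ∧ s.re < 1}

/-- RH, all zeros simple, and `∑ 1/|ρ ζ'(ρ)|² < ∞` (equivalent to the weak Mertens hypothesis, `W120.WM.final2`) -/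
def ZC : Prop := (∀ ρ ∈ NTZ, ρ.re = 1 / 2 ∧ deriv riemannZeta ρ ≠ 0) ∧
  Summable (fun ρ : NTZ => 1 / ‖(ρ : ℂ) * deriv riemannZeta ρ‖ ^ 2)

/-- `∑_ρ |ζ(1+ρ)|²/|ρ ζ'(ρ)|²` -/
noncomputable def zs : ℝ := ∑' ρ : NTZ, ‖riemannZeta (1 + (ρ : ℂ))‖ ^ 2 / ‖(ρ : ℂ) * deriv riemannZeta ρ‖ ^ 2

/-- `∫_1^x (h(u)/u)² du` -/
noncomputable def H2 (x : ℝ) : ℝ := ∫ u in (1 : ℝ)..x, (hh u / u) ^ 2

/-- `ζ(3)` -/
noncomputable def z3 : ℝ := ∑' n : ℕ, 1 / (n : ℝ) ^ 3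

/-- Franel's integral `∫_0^1 E_N²` -/
noncomputable def FI (N : ℕ) : ℝ := ∫ t in (0 : ℝ)..1, E N t ^ 2

/-- JOB W1 (0.8 h). Proof. `E_N(t) = -∑_{d≤N} M(⌊N/d⌋) ψ(dt) - 1/2` (`Pool.Agent.Q277.FA.E_eq`), `∫_0^1 ψ(at) ψ(bt) dt = (a,b)²/(12ab)`
(library `H332.FL.JJ_eq`, `quad_expand`, see `Pool/Agent/Q277/FA/L2.lean`), `∫ ψ(dt) = 0`; `(a,b)² = ∑_{e ∣ (a,b)} J_2(e)`,
`J_2(e) = e² ∑_{k ∣ e} μ(k)/k²`; so `∫ E_N² = (1/12) ∑_{e ≤ N} (J_2(e)/e²) (∑_{m ≤ N/e} M(⌊N/(em)⌋)/m)² + 1/4`.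
(Checked numerically for `N ≤ 12`.) -/
def J_W1 : Prop := ∀ N : ℕ, 1 ≤ N →
  FI N = 1 / 12 * (∑ e ∈ Finset.Icc 1 N, j2 e * hh ((N : ℝ) / e) ^ 2) + 1 / 4

/-- JOB W0 (0.8 h). Franel's sum. Proof. For a finite set `T ⊂ (0,1]` of real numbers with `n` elements, `∑_{r ∈ T} r = (n+1)/2`, and
`E(t) = #{r ∈ T : r ≤ t} - n t`: `∫_0^1 E² = ∑_{r,s} (1 - max(r,s)) - n ∑_r (1-r²) + n²/3`, and `∑_r E(r)²` is computed from
`∑_r c(r) r = (∑_{r,s} max(r,s) + ∑_r r)/2`, `∑_r c(r)² = n(n+1)(2n+1)/6` (`c(r) = #{s ≤ r}` runs through `1..n`); the result is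
`∑_r E(r)² = n (∫ E² - 1/3)`. The fractions `a/n`, `(a,n) ∈ FN N`, are distinct, and `r ↦ 1 - r` (for `r < 1`) gives `∑ r = (n+1)/2`
(`N = 1`: `n = 1`, `r = 1`). (Another way: `∫_0^1 E² dE`, telescoping over consecutive fractions.) Checked for `N ≤ 12`.
`(FN N).card = ∑ φ(n)`: `Pool.Agent.Q120.FA.card_FN` in `Fin3.lean`. -/
def J_W0 : Prop := ∀ N : ℕ, 1 ≤ N →
  W 2 N = (∑ n ∈ Finset.Icc 1 N, (n.totient : ℝ)) * (FI N - 1 / 3)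

/-- JOB W2 (1.5 h). The mean square of `h`.
Proof. Let `f(v) = M(e^v) e^(-v/2)` (`= 0` for `v < 0`), `k(v) = h(e^v) e^(-v/2) = ∑_{m ≥ 1} m^(-3/2) f(v - log m)`;
`H2(e^V) = ∫_0^V k²`, `∫_1^(e^V) (M(u)/u)² du = ∫_0^V f²`. Inversion: `f(v) = ∑_m μ(m) m^(-3/2) k(v - log m)`
(`M(y) = ∑_{m≤y} (μ(m)/m) h(y/m)`). Minkowski: `(∫_0^V f²)^(1/2) ≤ (∑ m^(-3/2)) (∫_0^V k²)^(1/2)`: if `ZC` fails the mean square of
`f` tends to `∞` (`W120.WM.final3` with `δ = 1`), so that of `k` does. If `ZC` holds: by `TH223.AP.main`, for a finite set `Z` of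
zeros `f = P_Z + R_Z`, `P_Z(v) = ∑_{ρ ∈ Z} e^((ρ-1/2)v)/(ρ ζ'(ρ))`, with mean square of `R_Z` tending to `∑_{ρ ∉ Z} 1/|ρζ'(ρ)|²`, small.
Then `k = ∑_m m^(-3/2) P_Z(v - log m) + ...`, the first sum (over all `m`; the `m > e^v` give `O(e^(-v/2))`) is
`∑_{ρ ∈ Z} ζ(1+ρ) e^((ρ-1/2)v)/(ρζ'(ρ))` (`∑_m m^(-3/2) m^(-(ρ-1/2)) = ζ(1+ρ)`, `Re ρ = 1/2`), whose mean square tends to
`∑_{ρ ∈ Z} |ζ(1+ρ)|²/|ρζ'(ρ)|²` (distinct ordinates), and the rest has mean square at most `(∑ m^(-3/2))²` times that of `R_Z`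
(Minkowski, as above). Let `Z` grow. (`|ζ(1+ρ)| ≤ ζ(3/2)`.) -/
def J_W2 : Prop := (ZC → Tendsto (fun x : ℝ => H2 x / Real.log x) atTop (𝓝 zs)) ∧
  (¬ ZC → Tendsto (fun x : ℝ => H2 x / Real.log x) atTop atTop)

/-- JOB W3 (1.2 h). The oscillation of `h` on short intervals.
Proof. Let `O1(u) = max |M(y) - M(y')|`, `y, y' ∈ [u - u^θ, u + u^θ]` (finitely many values, attained; `θ > 0` may be assumed; take
`2u^θ ≤ u^θ'` where convenient). `m = M + O1` is sampled from `M` in the sense of `SampledValues` (`Q241SPL.Between θ 1 m`), so by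
`Q241SPL.Between.maximal` with `Θ = 1/2`, `κ = 1 > θ`: `∫_1^∞ O1² u^(-2) du < ∞`. For `|y - u| ≤ u^θ`, `m ≤ u/2` or so:
`|y/m - u/m| ≤ u^θ/m ≤ (u/m)^θ`, so `|h(y) - h(u)| ≤ ∑_{m ≤ 2u} O1(u/m)/m + (terms with |m - u| ≤ u^θ: at most C u^(θ-1))`; Minkowski in
`L²(du/u²)`: the norm of `O1(u/m)/m` is `m^(-3/2)` times that of `O1`. For bounded `u` everything is bounded. -/
def J_W3 : Prop := ZC → ∀ θ : ℝ, 0 ≤ θ → θ < 1 → ∃ O : ℝ → ℝ, Measurable O ∧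
  (∀ u : ℝ, 1 ≤ u → 0 ≤ O u ∧ ∀ y : ℝ, |y - u| ≤ u ^ θ → |hh y - hh u| ≤ O u) ∧
  IntegrableOn (fun u => (O u / u) ^ 2) (Ioi 1)

/-- JOB W4 (1.5 h, uses `J_W1`, `J_W2`, `J_W3`). The lower bound, with the right constant, for all large `N`.
Proof. Fix `0 < δ < 1`, `Y = N^(1-δ)`. All terms in `J_W1` are nonnegative (`j2 e ≥ 0`), so
`12 FI N ≥ ∑_{e ≤ N, N/e ≤ Y} j2 e h(N/e)² = ∑_{k} μ(k) k^(-2) T(N/k)`, `T(y) = ∑_{j ≤ y, y/j ≤ Y} h(y/j)²` (`e = kj`).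
For fixed `k`, `y = N/k → ∞`: for `t ∈ [j,j+1]`, `u = y/t ≤ Y`: `|y/j - y/t| ≤ 2u²/y ≤ u^θ` if `(2-θ)(1-δ) < 1` (`θ < 1` close to 1), so
`|T(y) - ∫ h(y/t)² dt| ≤ ∑∫ |h(y/j)² - h(y/t)²| dt`, `∫ h(y/t)² dt = y ∫_1^Y h(u)² u^(-2) du = y H2(Y)`, and
`|a² - b²| ≤ (1+1/η) (a-b)² + η b²` with `J_W3` gives `T(y) = y H2(Y) (1+o(1)) + O(y)`, `H2(Y) ~ zs (1-δ) log N`. Domination in `k`:
`T(N/k) ≤ C (N/k) log N` for `k ≤ N^c` (the same estimate, uniformly) and trivially `|h(u)| ≤ C u^(1/2+ε)` (RH,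
`Pool.Agent.H295R2.mertens_bound`) for `k > N^c`, so the limit of `12 FI N/(N log N)` restricted to these `e` is
`∑_k μ(k) k^(-3) (1-δ) zs = (1-δ) zs/ζ(3)`. Let `δ → 0`. (Another way: `j2` has mean value `1/ζ(3)` on intervals of length `N^c'`, and `h(N/e)`
varies little on them.) -/
def J_W4 : Prop := ZC → ∀ c : ℝ, c < zs / (12 * z3) → ∀ᶠ N : ℕ in atTop, c * (N * Real.log N) ≤ FI N

/-- JOB W5 (0.5 h, uses `J_W1`, `J_W2`). Proof. `j2 e ≥ 1 - ∑_{k≥2} k^(-2) > 0` (or `j2 e = ∏ (1-p^(-2)) ≥ 6/π² > 0`), and for an integer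
`n ≤ √N/2` the number of `e` with `n ≤ N/e < n+1` is at least `N/(n(n+1)) - 1 ≥ N/(2n(n+1))`, `h` is constant on `[n,n+1)`; so
`12 FI N ≥ c N ∑_{n ≤ √N/2} h(n)²/(n(n+1)) ≥ c N H2(√N/2)` (`∫_n^(n+1) u^(-2) du = 1/(n(n+1))`). -/
def J_W5 : Prop := ¬ ZC → Tendsto (fun N : ℕ => FI N / (N * Real.log N)) atTop atTop

/-- JOB W6 (1.2 h, uses `J_W1`, `J_W2`). The logarithmic mean.
Proof. By `J_W1` `∑_{N≤X} N^(-2) FI N = (1/12) ∑_{e≤X} j2 e ∑_{e ≤ N ≤ X} N^(-2) h(N/e)² + O(1)`. `h(N/e) = h(n)` for `ne ≤ N < (n+1)e`, and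
`∑_{ne ≤ N < (n+1)e} N^(-2) = (1/e) (1/(n(n+1))) (1 + O(1/(ne)))` (compare with `∫ t^(-2) dt`), so the inner sum is
`(1/e) H2(X/e) (1+O(1/e)) + O(incomplete block: at most (1/e) h(n)²/(n(n+1)), n = ⌊X/e⌋)`, and
`∑_{e ≤ X} (j2 e/e) H2(X/e) ~ (zs/ζ(3)) (log X)²/2`: `H2(y) = zs log y + o(log y)`, `∑_{e≤x} j2 e/e = ζ(3)^(-1) log x + O(1)`
(`∑_{k} μ(k) k^(-3) = 1/ζ(3)`), partial summation, or `e = kj` and Riemann sums. The incomplete blocks: bounded by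
`H2(X/e + 1) - H2(X/e - 1)`, `o(log X)/e`. -/
def J_W6 : Prop := ZC → Tendsto (fun X : ℕ => (∑ N ∈ Finset.Icc 1 X, FI N / (N : ℝ) ^ 2) / Real.log X ^ 2) atTop
  (𝓝 (zs / (24 * z3)))

end Pool.Agent.Q120.FA
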